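import Mathlib

/-! Size estimates. -/

set_option autoImplicit false

noncomputable section

namespace Pool.Agent.Lib.MP_d61fbb_ag.FG

open Polynomial Matrix

variable {A : Type} [CommRing A] [IsDomain A] (N : AbsoluteValue A ℝ)

theorem eval_le (p : A[X]) : ∃ C : ℝ, 1 ≤ C ∧ ∀ a, N (p.eval a) ≤ C * max 1 (N a) ^ p.natDegree := by
  have h0 : 0 ≤ ∑ i ∈ Finset.range (p.natDegree + 1), N (p.coeff i) :=
    Finset.sum_nonneg fun i _ => N.nonneg _
  refine ⟨1 + ∑ i ∈ Finset.range (p.natDegree + 1), N (p.coeff i), by linarith, fun a => ?_⟩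
  have h1 : (1 : ℝ) ≤ max 1 (N a) := le_max_left _ _
  rw [eval_eq_sum_range, add_mul, Finset.sum_mul]
  refine (N.sum_le _ _).trans ((Finset.sum_le_sum fun i hi => ?_).trans
    (le_add_of_nonneg_left (by positivity)))
  rw [N.map_mul, N.map_pow]
  exact mul_le_mul_of_nonneg_left ((pow_le_pow_left₀ (N.nonneg a) (le_max_right _ _) i).trans
    (pow_le_pow_right₀ h1 (Nat.lt_succ_iff.1 (Finset.mem_range.1 hi)))) (N.nonneg _)

omit [IsDomain A] in
theorem h2_evalEval (g : A[X][X]) (a x : A) : g.evalEval a x =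
    ∑ i ∈ Finset.range (g.natDegree + 1), (g.coeff i).eval a * x ^ i := by
  rw [← eval₂_evalRingHom, eval₂_eq_sum_range]
  rfl

/-- The roots of a monic polynomial grow polynomially in the parameter. -/
theorem root_le {g : A[X][X]} (hg : g.Monic) : ∃ (C : ℝ) (c : ℕ), 1 ≤ C ∧
    ∀ a x, g.evalEval a x = 0 → N x ≤ C * max 1 (N a) ^ c := by
  choose C h1 h2 using fun i => eval_le N (g.coeff i)
  have h0 : 0 ≤ ∑ i ∈ Finset.range g.natDegree, C i :=
    Finset.sum_nonneg fun i _ => zero_le_one.trans (h1 i)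
  refine ⟨1 + ∑ i ∈ Finset.range g.natDegree, C i,
    ∑ i ∈ Finset.range g.natDegree, (g.coeff i).natDegree, by linarith, fun a x h => ?_⟩
  have h3 : (1 : ℝ) ≤ max 1 (N a) := le_max_left _ _
  have h4 := one_le_pow₀ h3 (n := ∑ i ∈ Finset.range g.natDegree, (g.coeff i).natDegree)
  rcases le_or_gt (N x) 1 with h5 | h5
  · nlinarith
  rw [h2_evalEval, Finset.sum_range_succ, hg.coeff_natDegree, eval_one, one_mul,
    add_eq_zero_iff_neg_eq] at h
  have h6 : N x ^ g.natDegree * N x ≤ N x ^ g.natDegree * ((∑ i ∈ Finset.range g.natDegree, C i) *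
      max 1 (N a) ^ ∑ i ∈ Finset.range g.natDegree, (g.coeff i).natDegree) := by
    nth_rw 1 [← N.map_pow, ← h]
    rw [N.map_neg, Finset.sum_mul, Finset.mul_sum]
    refine (mul_le_mul_of_nonneg_right (N.sum_le _ _) (N.nonneg x)).trans ?_
    rw [Finset.sum_mul]
    refine Finset.sum_le_sum fun i hi => ?_
    rw [N.map_mul, N.map_pow, mul_assoc, ← pow_succ, mul_comm]
    refine mul_le_mul (pow_le_pow_right₀ h5.le (Finset.mem_range.1 hi)) ((h2 i a).trans
      (mul_le_mul_of_nonneg_left (pow_le_pow_right₀ h3 (Finset.single_le_sum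
        (f := fun i => (g.coeff i).natDegree) (fun _ _ => Nat.zero_le _) hi))
        (zero_le_one.trans (h1 i)))) (N.nonneg _) (by positivity)
  have h7 := le_of_mul_le_mul_left h6 (by positivity)
  nlinarith

theorem det_le {σ : Type} [Fintype σ] [DecidableEq σ] (M : Matrix σ σ A) (b : σ → ℝ)
    (h : ∀ k u, N (M k u) ≤ b u) : N M.det ≤ (Fintype.card σ).factorial * ∏ u, b u := by
  rw [det_apply, ← nsmul_eq_mul, ← Fintype.card_perm, ← Finset.card_univ]
  refine (N.sum_le _ _).trans (Finset.sum_le_card_nsmul _ _ _ fun e _ => ?_)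
  rw [N.map_units_int_smul, N.map_prod]
  exact Finset.prod_le_prod (fun _ _ => N.nonneg _) fun u _ => h _ u

/-- The archimedean estimate: the determinant of monomials is small. -/
theorem mono_le {g : A[X][X]} (hg : g.Monic) : ∃ D : ℕ, ∀ E : ℝ, 1 ≤ E → ∃ Q0 : ℝ,
    ∀ Q : ℝ, Q0 ≤ Q → ∀ a x : Fin D × Fin 2 → A, (∀ k, N (a k) ≤ E * Q) →
      (∀ k, g.evalEval (a k) (x k) = 0) →
      N (Matrix.of fun k (u : Fin D × Fin 2) => a k ^ (u.1 : ℕ) * x k ^ (u.2 : ℕ)).det <
        Q ^ (D * (2 * D - 1)) := by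
  obtain ⟨C, c, h1, h2⟩ := root_le N hg
  refine ⟨c + 1, fun E hE => ⟨(Fintype.card (Fin (c + 1) × Fin 2)).factorial *
    (C ^ (c + 1) * E ^ (2 * c * (c + 1))) + 1, fun Q hQ a x ha hx => ?_⟩⟩
  have h3 : (0 : ℝ) ≤ (Fintype.card (Fin (c + 1) × Fin 2)).factorial *
    (C ^ (c + 1) * E ^ (2 * c * (c + 1))) := by positivity
  have h4 : 1 ≤ Q := by linarith
  have h5 : 1 ≤ E * Q := one_le_mul_of_one_le_of_one_le hE h4
  refine (det_le N _ (fun u => (E * Q) ^ (u.1 : ℕ) * (C * (E * Q) ^ c) ^ (u.2 : ℕ))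
    fun k u => ?_).trans_lt ?_
  · rw [of_apply, N.map_mul, N.map_pow, N.map_pow]
    have h6 : N (x k) ≤ C * (E * Q) ^ c := (h2 _ _ (hx k)).trans (mul_le_mul_of_nonneg_left
      (pow_le_pow_left₀ (by positivity) (max_le h5 (ha k)) c) (by positivity))
    exact mul_le_mul (pow_le_pow_left₀ (N.nonneg _) (ha k) _) (pow_le_pow_left₀ (N.nonneg _) h6 _)
      (pow_nonneg (N.nonneg _) _) (by positivity)
  have h6 : ∏ u : Fin (c + 1) × Fin 2, (E * Q) ^ (u.1 : ℕ) * (C * (E * Q) ^ c) ^ (u.2 : ℕ) =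
      C ^ (c + 1) * E ^ (2 * c * (c + 1)) * Q ^ (2 * c * (c + 1)) := by
    have h7 : ∀ i : Fin (c + 1), ∏ e : Fin 2, (E * Q) ^ (i : ℕ) * (C * (E * Q) ^ c) ^ (e : ℕ) =
        ((E * Q) ^ 2) ^ (i : ℕ) * (C * (E * Q) ^ c) := fun i => by
      rw [Fin.prod_univ_two]
      simp only [Fin.val_zero, Fin.val_one]
      ring
    rw [Fintype.prod_prod_type, Finset.prod_congr rfl fun i _ => h7 i, Finset.prod_mul_distrib,
      Finset.prod_pow_eq_pow_sum, Fin.sum_univ_eq_sum_range (fun i => i), ← pow_mul, mul_comm 2,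
      Finset.sum_range_id_mul_two, Finset.prod_const, Finset.card_univ, Fintype.card_fin,
      Nat.add_sub_cancel]
    ring
  rw [h6, ← mul_assoc]
  refine (mul_lt_mul_of_pos_right ((lt_add_one _).trans_le hQ) (by positivity)).trans_le ?_
  rw [← pow_succ']
  refine pow_le_pow_right₀ h4 ?_
  rw [show 2 * (c + 1) - 1 = 2 * c + 1 by omega]
  nlinarith

/-- A curve `α(t) + β(t) x = 0` contains few points of `g = 0`. -/
theorem line_le {g : A[X][X]} (hg : g.Monic)
    (nr : ∀ α β : A[X], β ≠ 0 → (g.scaleRoots β).eval α ≠ 0) (D : ℕ) :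
    ∃ C : ℕ, ∀ c : Fin D × Fin 2 → A, c ≠ 0 → ∀ T : Finset A,
      (∀ a ∈ T, ∃ x, g.evalEval a x = 0 ∧ ∑ u, c u * (a ^ (u.1 : ℕ) * x ^ (u.2 : ℕ)) = 0) →
      T.card ≤ C := by
  classical
  refine ⟨D + (∑ i ∈ Finset.range (g.natDegree + 1), (g.coeff i).natDegree + g.natDegree * D),
    fun c hc T hT => ?_⟩
  let f : Fin 2 → A[X] := fun e => ∑ i : Fin D, C (c (i, e)) * X ^ (i : ℕ)
  have h1 : ∀ e, (f e).natDegree ≤ D := fun e => natDegree_sum_le_of_forall_le _ _ fun i _ =>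
    (natDegree_C_mul_X_pow_le _ _).trans i.2.le
  have h2 : ∀ e i, (f e).coeff (i : Fin D) = c (i, e) := fun e i => by
    simp [f, coeff_X_pow, Fin.val_inj]
  have h3 : ∀ a x : A, ∑ u, c u * (a ^ (u.1 : ℕ) * x ^ (u.2 : ℕ)) =
      (f 0).eval a + (f 1).eval a * x := fun a x => by
    simp [f, Fintype.sum_prod_type, eval_finsetSum, Finset.sum_add_distrib, Finset.sum_mul,
      mul_assoc]
  have h4 : ∀ R : A[X], R ≠ 0 → (∀ a ∈ T, R.eval a = 0) → T.card ≤ R.natDegree := fun R hR h =>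
    card_le_degree_of_subset_roots fun a ha => (mem_roots hR).2 (h a ha)
  by_cases h : f 1 = 0
  · refine ((h4 (f 0) (fun h0 => hc (funext fun ⟨i, e⟩ => ?_)) fun a ha => ?_).trans
      (h1 0)).trans (Nat.le_add_right _ _)
    · rw [← h2]
      fin_cases e
      · exact (congrArg (coeff · i) h0).trans (coeff_zero _)
      · exact (congrArg (coeff · i) h).trans (coeff_zero _)
    · obtain ⟨x, -, h5⟩ := hT a ha
      simpa [h3, h] using h5
  have h5 : (g.scaleRoots (f 1)).eval (-f 0) = ∑ i ∈ Finset.range (g.natDegree + 1),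
      g.coeff i * f 1 ^ (g.natDegree - i) * (-f 0) ^ i := by
    simp only [eval_eq_sum_range, natDegree_scaleRoots, coeff_scaleRoots]
  refine (h4 _ (nr (-f 0) (f 1) h) fun a ha => ?_).trans (le_trans ?_ (Nat.le_add_left _ _))
  · obtain ⟨x, h6, h7⟩ := hT a ha
    rw [h3, add_eq_zero_iff_neg_eq] at h7
    rw [h5, eval_finsetSum, ← mul_zero ((f 1).eval a ^ g.natDegree), ← h6, h2_evalEval,
      Finset.mul_sum]
    refine Finset.sum_congr rfl fun i hi => ?_
    rw [eval_mul, eval_mul, eval_pow, eval_pow, eval_neg, h7, mul_pow,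
      ← pow_sub_mul_pow ((f 1).eval a) (Nat.lt_succ_iff.1 (Finset.mem_range.1 hi))]
    ring
  · rw [h5]
    refine natDegree_sum_le_of_forall_le _ _ fun i hi => natDegree_mul_le.trans ?_
    have h6 := Finset.single_le_sum (f := fun i => (g.coeff i).natDegree)
      (fun _ _ => Nat.zero_le _) hi
    have h7 := natDegree_mul_le (p := g.coeff i) (q := f 1 ^ (g.natDegree - i))
    have h8 := natDegree_pow_le_of_le (g.natDegree - i) (h1 1)
    have h9 := natDegree_pow_le_of_le i ((natDegree_neg _).trans_le (h1 0))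
    have h10 : (g.natDegree - i) * D + i * D = g.natDegree * D := by
      rw [← add_mul, Nat.sub_add_cancel (Nat.lt_succ_iff.1 (Finset.mem_range.1 hi))]
    omega

end Pool.Agent.Lib.MP_d61fbb_ag.FG
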