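import Pool.Agent.Lib.MP_d61fbb_ag.FG.H1
import Pool.Agent.Lib.MP_d61fbb_ag.FG.H2

/-! The determinant method. -/

set_option autoImplicit false

noncomputable section

namespace Pool.Agent.Lib.MP_d61fbb_ag.FG

open Polynomial Matrix Classical

variable {A : Type} [CommRing A] [IsDomain A] [IsPrincipalIdealRing A] [CharZero A]
  (N : AbsoluteValue A ℝ)

/-- Few points of a short progression carry a root in a given residue class. -/
theorem class_le (h1 : ∀ x, x ≠ 0 → 1 ≤ N x) {g : A[X][X]} (hg : g.Monic)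
    (nr : ∀ α β : A[X], β ≠ 0 → (g.scaleRoots β).eval α ≠ 0) :
    ∃ C : ℕ, ∀ π a0 : A, Prime π → 1 < N π → ∀ Y : ℕ, ∃ m0 : ℕ, ∀ m, m0 ≤ m →
      ∀ x0, ¬ π ∣ (derivative g).evalEval a0 x0 →
        ((Finset.range Y).filter fun y : ℕ =>
          ∃ x, π ∣ x - x0 ∧ g.evalEval (a0 + π ^ (m + 1) * y) x = 0).card ≤ C := by
  obtain ⟨D, hD⟩ := mono_le N hg
  obtain ⟨C, hC⟩ := line_le hg nr D
  refine ⟨C, fun π a0 hπ hN Y => ?_⟩
  have n0 := N.nonneg a0
  have y0 := Nat.cast_nonneg (α := ℝ) Y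
  obtain ⟨Q0, hQ⟩ := hD (1 + N a0 + Y) (by linarith)
  obtain ⟨m0, hm0⟩ := pow_unbounded_of_one_lt Q0 hN
  refine ⟨m0, fun m hm x0 hx0 => ?_⟩
  obtain ⟨β, hβ⟩ : ∃ β, π ∣ β * (derivative g).evalEval a0 x0 - 1 := by
    obtain ⟨u, v, e⟩ := hπ.irreducible.coprime_iff_not_dvd.2 hx0
    exact ⟨v, -u, by linear_combination e⟩
  obtain ⟨ψ, hψ⟩ := newton g hβ ((m + 1) * (D * (2 * D - 1)))
  generalize hS : ((Finset.range Y).filter fun y : ℕ =>
    ∃ x, π ∣ x - x0 ∧ g.evalEval (a0 + π ^ (m + 1) * y) x = 0) = S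
  have hm1 : ∀ y : S, (y : ℕ) < Y ∧
      ∃ x, π ∣ x - x0 ∧ g.evalEval (a0 + π ^ (m + 1) * (y : ℕ)) x = 0 := fun y => by
    have := hS.ge y.2
    rwa [Finset.mem_filter, Finset.mem_range] at this
  choose x hx using fun y => (hm1 y).2
  obtain ⟨a, ha⟩ : ∃ a : S → A, ∀ y, a y = a0 + π ^ (m + 1) * (y : ℕ) := ⟨_, fun _ => rfl⟩
  simp only [← ha] at hx
  have ha1 : ∀ y, π ^ (m + 1) ∣ a y - a0 := fun y => ⟨(y : ℕ), by rw [ha, add_sub_cancel_left]⟩
  obtain ⟨c, c0, hc⟩ := exists_rel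
    (fun (y : S) (u : Fin D × Fin 2) => a y ^ (u.1 : ℕ) * x y ^ (u.2 : ℕ)) fun f => by
      by_contra h0
      have q1 : 1 ≤ N π ^ (m + 1) := one_le_pow₀ hN.le
      have h2 := hQ (N π ^ (m + 1)) (hm0.le.trans (pow_le_pow_right₀ hN.le (by omega)))
        (fun k => a (f k)) (fun k => x (f k)) (fun k => by
          have k1 := N.add_le a0 (π ^ (m + 1) * (f k : ℕ))
          have k2 : N ((f k : ℕ) : A) ≤ Y :=
            (N.apply_nat_le_self _).trans (Nat.cast_le.2 (hm1 _).1.le)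
          have k3 := mul_le_mul_of_nonneg_left k2 (zero_le_one.trans q1)
          have k4 := le_mul_of_one_le_right n0 q1
          rw [map_mul, map_pow, ← ha] at k1
          linarith) fun k => (hx _).2
      have h3 := vdm_dvd (fun k => a (f k)) (fun k => ha1 (f k))
        fun u : Fin D × Fin 2 => X ^ (u.1 : ℕ) * ψ ^ (u.2 : ℕ)
      rw [Fintype.card_prod, Fintype.card_fin, Fintype.card_fin, mul_right_comm,
        Nat.mul_div_cancel _ two_pos, mul_comm D 2, ← pow_mul] at h3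
      have h4 := det_congr (P := π ^ ((m + 1) * (D * (2 * D - 1))))
        (M := Matrix.of fun k (u : Fin D × Fin 2) => a (f k) ^ (u.1 : ℕ) * x (f k) ^ (u.2 : ℕ))
        (M' := Matrix.of fun k (u : Fin D × Fin 2) => (X ^ (u.1 : ℕ) * ψ ^ (u.2 : ℕ)).eval (a (f k)))
        fun k u => by
          simp only [Matrix.of_apply, eval_mul, eval_pow, eval_X, ← mul_sub]
          exact ((hψ _ _ ((dvd_pow_self π m.succ_ne_zero).trans (ha1 _)) (hx _).1 (hx _).2).trans
            (sub_dvd_pow_sub_pow _ _ _)).mul_left _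
      obtain ⟨r, hr⟩ := (dvd_sub_left h3).1 h4
      rw [hr] at h0 h2
      rw [map_mul, map_pow, pow_mul] at h2
      exact absurd h2 (not_lt.2 (le_mul_of_one_le_right (by positivity)
        (h1 r (right_ne_zero_of_mul h0))))
  have h5 := hC c c0 (Finset.univ.image a) fun b hb => by
    obtain ⟨y, -, rfl⟩ := Finset.mem_image.1 hb
    exact ⟨x y, (hx y).2, hc y⟩
  rwa [Finset.card_image_of_injective _ fun y y' e => by
    rw [ha, ha, add_right_inj] at e
    exact Subtype.ext (Nat.cast_injective (mul_left_cancel₀ (pow_ne_zero _ hπ.ne_zero) e)),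
    Finset.card_univ, Fintype.card_coe] at h5

/-- The irreducibility theorem over a principal ideal domain with a size. -/
theorem core (h1 : ∀ x, x ≠ 0 → 1 ≤ N x) (h2 : ∀ x : A, x ≠ 0 → ∃ π, Prime π ∧ 1 < N π ∧ ¬ π ∣ x)
    {ι : Type} [Finite ι] (g : ι → A[X][X]) {h : A[X]} (h0 : h ≠ 0) (hg : ∀ j, (g j).Monic)
    (sep : ∀ j, ∃ (u v : A[X][X]) (δ : A[X]), δ ≠ 0 ∧ u * g j + v * derivative (g j) = C δ)
    (nr : ∀ j (α β : A[X]), β ≠ 0 → ((g j).scaleRoots β).eval α ≠ 0) :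
    ∃ a : A, h.eval a ≠ 0 ∧ ∀ j x, (g j).evalEval a x ≠ 0 := by
  have := Fintype.ofFinite ι
  choose u v δ δ0 e using sep
  choose K hK using fun j => class_le N h1 (hg j) (nr j)
  obtain ⟨a0, ha0⟩ : ∃ a0, (h * ∏ j, δ j).eval a0 ≠ 0 := by
    by_contra! k
    exact mul_ne_zero h0 (Finset.prod_ne_zero_iff.2 fun j _ => δ0 j)
      (Polynomial.funext fun r => by rw [k, eval_zero])
  obtain ⟨π, hπ, hN, hd⟩ := h2 _ ha0
  rw [eval_mul, eval_prod] at hd
  have : (Ideal.span {π}).IsPrime := (Ideal.span_singleton_prime hπ.ne_zero).2 hπ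
  obtain ⟨s, hs⟩ := (Ideal.Quotient.mk_surjective (I := Ideal.span {π})).hasRightInverse
  obtain ⟨G, hG⟩ : ∃ G : ι → (A ⧸ Ideal.span {π})[X], ∀ j,
      G j = ((g j).map (evalRingHom a0)).map (Ideal.Quotient.mk _) := ⟨_, fun _ => rfl⟩
  have G1 : ∀ j, (G j).Monic := fun j => hG j ▸ ((hg j).map _).map _
  have G2 : ∀ j x, Ideal.Quotient.mk _ x ∈ (G j).roots.toFinset ↔ π ∣ (g j).evalEval a0 x :=
    fun j x => by
      rw [Multiset.mem_toFinset, mem_roots (G1 j).ne_zero, IsRoot, hG, eval_map, eval₂_at_apply,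
        map_evalRingHom_eval, Ideal.Quotient.eq_zero_iff_dvd]
  choose m0 hm0 using fun j => hK j π a0 hπ hN (∑ j, (G j).natDegree * K j + 1)
  obtain ⟨m, hm⟩ : ∃ m, ∀ j, m0 j ≤ m :=
    ⟨Finset.univ.sup m0, fun j => Finset.le_sup (Finset.mem_univ j)⟩
  by_contra! hc
  have k1 : ∀ y : ℕ, π ∣ a0 + π ^ (m + 1) * y - a0 := fun y => by
    rw [add_sub_cancel_left]
    exact (dvd_pow_self π m.succ_ne_zero).mul_right _
  have h3 : Finset.range (∑ j, (G j).natDegree * K j + 1) ⊆ Finset.univ.biUnion fun j =>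
      (G j).roots.toFinset.biUnion fun r =>
        (Finset.range (∑ j, (G j).natDegree * K j + 1)).filter fun y : ℕ =>
          ∃ x, π ∣ x - s r ∧ (g j).evalEval (a0 + π ^ (m + 1) * y) x = 0 := fun y hy => by
    obtain ⟨j, x, hx⟩ := hc (a0 + π ^ (m + 1) * y) fun k => hd (Dvd.dvd.mul_right (by
      have := (k1 y).trans (sub_dvd_eval_sub _ a0 h)
      rwa [k, zero_sub, dvd_neg] at this) _)
    refine Finset.mem_biUnion.2 ⟨j, Finset.mem_univ _, Finset.mem_biUnion.2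
      ⟨Ideal.Quotient.mk _ x, (G2 j x).2 ?_, Finset.mem_filter.2 ⟨hy, x, ?_, hx⟩⟩⟩
    · have := (k1 y).trans (sub_dvd_eval_sub _ a0 ((g j).eval (C x)))
      rwa [show ((g j).eval (C x)).eval (a0 + π ^ (m + 1) * y) = 0 from hx, zero_sub, dvd_neg] at this
    · rw [← Ideal.mem_span_singleton, ← Ideal.Quotient.eq, hs]
  have h4 := (Finset.card_le_card h3).trans (Finset.card_biUnion_le.trans
    (Finset.sum_le_sum (g := fun j => (G j).natDegree * K j) fun j _ =>
      (Finset.card_biUnion_le_card_mul _ _ (K j) fun r hr => hm0 j m (hm j) (s r) fun k => ?_).trans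
        (Nat.mul_le_mul_right _ ((Multiset.toFinset_card_le _).trans (card_roots' _)))))
  · rw [Finset.card_range] at h4
    omega
  · refine hd (Dvd.dvd.mul_left (Dvd.dvd.trans ?_ (Finset.dvd_prod_of_mem _ (Finset.mem_univ j))) _)
    have k2 := congrArg (evalEval a0 (s r)) (e j)
    rw [evalEval_add, evalEval_mul, evalEval_mul, evalEval_C] at k2
    rw [← k2]
    exact (((G2 j _).1 (by rwa [hs])).mul_left _).add (k.mul_left _)

end Pool.Agent.Lib.MP_d61fbb_ag.FG
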