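import Pool.Agent.Lib.MP_d61fbb_ag.FG.D
import Pool.Agent.Lib.MP_d61fbb_ag.FG.H3

/-! The irreducibility theorem of Hilbert. -/

set_option autoImplicit false

noncomputable section

namespace Pool.Agent.Lib.MP_d61fbb_ag.FG

open Polynomial

theorem h4_sep {R L : Type} [CommRing R] [Field L] {ψ : R →+* L} (hψ : Function.Injective ψ)
    {G : R[X]} (hG : G.Monic) (h : (G.map ψ).Separable) :
    ∃ (u v : R[X]) (δ : R), δ ≠ 0 ∧ u * G + v * derivative G = C δ := by
  have := ψ.domain_nontrivial
  by_cases h0 : G.natDegree = 0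
  · exact ⟨1, 0, 1, one_ne_zero, by simp [hG.natDegree_eq_zero.1 h0]⟩
  obtain ⟨u, v, -, -, e⟩ :=
    exists_mul_add_mul_eq_C_resultant G (derivative G) le_rfl le_rfl (Or.inl h0)
  refine ⟨u, v, _, fun h1 => resultant_ne_zero _ _ h ?_, by rw [← e, mul_comm u, mul_comm v]⟩
  rw [derivative_map, resultant_map_map, natDegree_map_eq_of_injective hψ,
    natDegree_map_eq_of_injective hψ, h1, map_zero]

theorem h4_scale {L : Type} [Field L] [CharZero L] {p : L[X]} (h : p.Separable) {r : L}
    (hr : r ≠ 0) : (p.scaleRoots r).Separable := by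
  have e : derivative (p.scaleRoots r) = (derivative p).scaleRoots r := by
    ext i
    rw [coeff_derivative, coeff_scaleRoots, coeff_scaleRoots, coeff_derivative,
      natDegree_derivative, Nat.sub_sub, add_comm 1 i, mul_right_comm]
  rw [Separable, e]
  exact isCoprime_scaleRoots _ _ _ hr.isUnit h

theorem h4_lift (A : Type) {K : Type} [CommRing A] [Field K] [Algebra A K] [IsFractionRing A K]
    {g : K[X][X]} (hg : g.Monic) : ∃ (c : A) (G : A[X][X]), algebraMap A K c ≠ 0 ∧ G.Monic ∧
      G.map (mapRingHom (algebraMap A K)) = g.scaleRoots (C (algebraMap A K c)) := by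
  let _ := Polynomial.algebra A K
  have := Polynomial.isLocalization (nonZeroDivisors A) K
  obtain ⟨G, h1, -, h2⟩ := lifts_and_natDegree_eq_and_monic
    (IsLocalization.scaleRoots_commonDenom_mem_lifts ((nonZeroDivisors A).map C) g
      (by rw [hg.leadingCoeff]; exact one_mem _)) ((monic_scaleRoots_iff _).2 hg)
  obtain ⟨c, hc, e⟩ := (IsLocalization.commonDenom ((nonZeroDivisors A).map C) g.support g.coeff).2
  refine ⟨c, G, (IsLocalization.map_units K (⟨c, hc⟩ : nonZeroDivisors A)).ne_zero, h2,
    h1.trans ?_⟩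
  rw [← e]
  exact congrArg _ (map_C _)

theorem hi_frac {A K : Type} [CommRing A] [IsDomain A] [IsPrincipalIdealRing A] [CharZero A]
    [Field K] [Algebra A K] [IsFractionRing A K] (N : AbsoluteValue A ℝ)
    (h1 : ∀ x, x ≠ 0 → 1 ≤ N x) (h2 : ∀ x : A, x ≠ 0 → ∃ π, Prime π ∧ 1 < N π ∧ ¬ π ∣ x) :
    HI K := by
  intro ι _ g h h0 hg sep nr
  have i1 := IsFractionRing.injective A K
  have i2 := IsFractionRing.injective K[X] (RatFunc K)
  have i3 : Function.Injective ((algebraMap K[X] (RatFunc K)).comp (mapRingHom (algebraMap A K))) :=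
    i2.comp (map_injective _ i1)
  have : CharZero K := charZero_of_injective_ringHom i1
  have : CharZero (RatFunc K) := charZero_of_injective_ringHom i2
  choose c G c0 G1 G2 using fun j => h4_lift A (hg j)
  have c1 : ∀ j, algebraMap K[X] (RatFunc K) (C (algebraMap A K (c j))) ≠ 0 := fun j =>
    (map_ne_zero_iff _ i2).2 (C_ne_zero.2 (c0 j))
  obtain ⟨b, -, hb⟩ := IsLocalization.integerNormalization_spec (nonZeroDivisors A) h
  obtain ⟨a, a1, a2⟩ := core N h1 h2 G (IsFractionRing.integerNormalization_eq_zero_iff.not.2 h0) G1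
    (fun j => h4_sep i3 (G1 j) (by
      rw [← map_map, G2, map_scaleRoots _ _ _ (by rw [(hg j).leadingCoeff, map_one]; simp)]
      exact h4_scale (sep j) (c1 j))) fun j α β hβ e => by
      have b0 := (map_ne_zero_iff _ i3).2 hβ
      have e1 := congrArg ((algebraMap K[X] (RatFunc K)).comp (mapRingHom (algebraMap A K))) e
      rw [← eval₂_at_apply, ← mul_div_cancel₀ (((algebraMap K[X] (RatFunc K)).comp
        (mapRingHom (algebraMap A K))) α) b0, scaleRoots_eval₂_mul, map_zero,
        mul_eq_zero_iff_left (pow_ne_zero _ b0), ← eval₂_map, G2,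
        ← mul_div_cancel₀ (_ / _ : RatFunc K) (c1 j), scaleRoots_eval₂_mul,
        mul_eq_zero_iff_left (pow_ne_zero _ (c1 j))] at e1
      exact nr j _ e1
  refine ⟨algebraMap A K a, fun e => a1 (i1 ?_), fun j x e => ?_⟩
  · rw [← eval₂_at_apply, ← eval_map, hb, eval_smul, e, smul_zero, map_zero]
  · have e1 : ((G j).map (mapRingHom (algebraMap A K))).evalEval (algebraMap A K a)
        (algebraMap A K (c j) * x) = 0 := by
      rw [← eval₂_evalRingHom] at e ⊢
      simpa [G2] using scaleRoots_eval₂_eq_zero (s := C (algebraMap A K (c j))) _ e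
    obtain ⟨y, hy⟩ := isInteger_of_is_root_of_monic ((G1 j).map (evalRingHom a))
      (r := algebraMap A K (c j) * x) (by
        rw [aeval_def, eval₂_map, ← e1, ← eval₂_evalRingHom, eval₂_map]
        congr 1
        ext <;> simp)
    rw [← hy, map_mapRingHom_evalEval] at e1
    exact a2 j y (i1 (e1.trans (map_zero _).symm))

theorem hi_rat : HI ℚ := by
  refine hi_frac (A := ℤ) ((AbsoluteValue.abs (S := ℝ)).comp (f := Int.castRingHom ℝ)
    Int.cast_injective) (fun x hx => ?_) fun x hx => ?_
  · change 1 ≤ |(x : ℝ)|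
    exact_mod_cast Int.one_le_abs hx
  · obtain ⟨p, h1, h2⟩ := Nat.exists_infinite_primes (x.natAbs + 1)
    refine ⟨p, Nat.prime_iff_prime_int.1 h2, ?_, fun h => ?_⟩
    · change 1 < |((p : ℤ) : ℝ)|
      rw [Int.cast_natCast, Nat.abs_cast]
      exact_mod_cast h2.one_lt
    · have := Nat.le_of_dvd (Int.natAbs_pos.2 hx) (Int.natCast_dvd.1 h)
      omega

open Classical in
/-- The size of a polynomial. -/
def h4N (k : Type) [Field k] : AbsoluteValue k[X] ℝ where
  toFun p := if p = 0 then 0 else 2 ^ p.natDegree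
  map_mul' p q := by
    by_cases hp : p = 0
    · simp [hp]
    by_cases hq : q = 0
    · simp [hq]
    rw [if_neg (mul_ne_zero hp hq), if_neg hp, if_neg hq, natDegree_mul hp hq, pow_add]
  nonneg' p := by
    split_ifs <;> positivity
  eq_zero' p := by
    by_cases hp : p = 0 <;> simp [hp]
  add_le' p q := by
    by_cases hp : p = 0
    · simp [hp]
    by_cases hq : q = 0
    · simp [hq]
    rw [if_neg hp, if_neg hq]
    split_ifs
    · positivity
    rcases le_max_iff.1 (natDegree_add_le p q) with h | h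
    · exact (pow_le_pow_right₀ one_le_two h).trans (le_add_of_nonneg_right (by positivity))
    · exact (pow_le_pow_right₀ one_le_two h).trans (le_add_of_nonneg_left (by positivity))

theorem h4N_apply {k : Type} [Field k] {p : k[X]} (hp : p ≠ 0) : h4N k p = 2 ^ p.natDegree :=
  if_neg hp

theorem hi_ratFunc (k : Type) [Field k] [CharZero k] : HI (RatFunc k) := by
  refine hi_frac (h4N k) (fun x hx => ?_) fun x hx => ?_
  · rw [h4N_apply hx]
    exact one_le_pow₀ one_le_two
  · obtain ⟨c, hc⟩ : ∃ c, ¬ x.IsRoot c := by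
      by_contra! h
      exact hx (Polynomial.funext fun r => (h r).trans eval_zero.symm)
    refine ⟨X - C c, prime_X_sub_C c, ?_, mt dvd_iff_isRoot.1 hc⟩
    rw [h4N_apply (X_sub_C_ne_zero c), natDegree_X_sub_C]
    norm_num

end Pool.Agent.Lib.MP_d61fbb_ag.FG
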