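import Pool.Agent.Lib.MP_d61fbb_ag.FG.V4
import Pool.Agent.Lib.MP_d61fbb_ag.FG.H4
import Pool.Agent.Lib.MP_d61fbb_ag.SQ.FTop

/-! Frobenius density for finitely generated fields. -/

set_option autoImplicit false

noncomputable section

namespace Pool.Agent.Lib.MP_d61fbb_ag.FG

open Polynomial IsLocalRing Pool.Agent.Lib.MP_d61fbb_ag.SQ

theorem t_res {Ω : Type} [Field Ω] (R : ValuationSubring Ω) (p : ℕ) :
    (p : ResidueField R) = 0 ↔ R.valuation p < 1 := by
  rw [← map_natCast (residue R), residue_eq_zero_iff, ValuationSubring.valuation_lt_one_iff]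
  simp

theorem t_closure {k : Type} [Field k] (h : ∀ (F : Finset (AlgebraicClosure k))
    (s : AlgebraicClosure k ≃ₐ[k] AlgebraicClosure k) (Bd : ℕ),
    ∃ (R : ValuationSubring (AlgebraicClosure k)) (p : ℕ)
      (φ : AlgebraicClosure k ≃ₐ[k] AlgebraicClosure k) (a b : ℕ),
      p.Prime ∧ Bd < p ∧ (p : ResidueField R) = 0 ∧ FrobAt R p φ.toRingEquiv ∧
      (∀ x ∈ F, x ≠ 0 → R.valuation x = 1) ∧ (∀ x ∈ F, φ x = (s ^ a) x) ∧
      ∀ x ∈ F, s x = (φ ^ b) x) : FD k := by
  classical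
  intro Ω _ _ _ F s Bd
  obtain ⟨e₀⟩ : Nonempty (Ω ≃ₐ[k] AlgebraicClosure k) := ⟨IsAlgClosure.equiv k Ω _⟩
  obtain ⟨e, s', hs, he⟩ : ∃ (e : Ω ≃+* AlgebraicClosure k)
      (s' : AlgebraicClosure k ≃ₐ[k] AlgebraicClosure k), (∀ x, e (s x) = s' (e x)) ∧
      ∀ ψ : AlgebraicClosure k ≃ₐ[k] AlgebraicClosure k, ∃ φ : Ω ≃ₐ[k] Ω,
        ∀ x, e (φ x) = ψ (e x) :=
    ⟨e₀.toRingEquiv, (e₀.symm.trans s).trans e₀, fun x => by simp,
      fun ψ => ⟨(e₀.trans ψ).trans e₀.symm, fun x => by simp⟩⟩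
  obtain ⟨R, p, ψ, a, b, h1, h2, h3, h4, h5, h6, h7⟩ := h (F.image e) s' Bd
  obtain ⟨φ, hφ⟩ := he ψ
  obtain ⟨v, hv⟩ : ∃ v : Valuation Ω R.ValueGroup, ∀ x, v x = R.valuation (e x) :=
    ⟨R.valuation.comap e.toRingHom, fun _ => rfl⟩
  have hq := v.isEquiv_valuation_valuationSubring
  have hm : ∀ x, x ∈ v.valuationSubring ↔ e x ∈ R := fun x => by
    rw [Valuation.mem_valuationSubring_iff, hv, ValuationSubring.valuation_le_one_iff]
  refine ⟨v.valuationSubring, p, φ, a, b, h1, h2, ?_, ⟨fun x => ?_, fun x hx => ?_⟩,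
    fun x hx x0 => ?_, fun x hx => e.injective ?_, fun x hx => e.injective ?_⟩
  · rw [t_res, ← hq.lt_one_iff_lt_one, hv, map_natCast]
    exact (t_res R p).1 h3
  · rw [hm, hm]
    exact (hφ x).symm ▸ h4.1 (e x)
  · rw [← hq.lt_one_iff_lt_one, hv, map_sub, map_pow]
    exact (hφ x).symm ▸ h4.2 (e x) ((hm x).1 hx)
  · rw [← hq.eq_one_iff_eq_one, hv]
    exact h5 _ (Finset.mem_image_of_mem _ hx) ((map_ne_zero e).2 x0)
  · rw [hφ, ftop_pow e hs]
    exact h6 _ (Finset.mem_image_of_mem _ hx)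
  · rw [hs, ftop_pow e hφ]
    exact h7 _ (Finset.mem_image_of_mem _ hx)

theorem fd_rat : FD ℚ := by
  exact t_closure (frobStmt ℚ)

theorem FD.finite {k K : Type} [Field k] [Field K] [Algebra k K] [Module.Finite k K] (h : FD k) :
    FD K := by
  classical
  intro Ω _ _ _ F s Bd
  let _ : Algebra k Ω := ((algebraMap K Ω).comp (algebraMap k K)).toAlgebra
  have : IsScalarTower k K Ω := IsScalarTower.of_algebraMap_eq fun _ => rfl
  have : IsAlgClosure k Ω := ⟨IsAlgClosure.isAlgClosed K, Algebra.IsAlgebraic.trans k K Ω⟩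
  let β := Module.finBasis k K
  obtain ⟨R, p, ψ, a, b, h1, h2, h3, h4, h5, h6, h7⟩ := h Ω
    (F ∪ Finset.univ.image fun i => algebraMap K Ω (β i)) (s.restrictScalars k) Bd
  have hs : ∀ (n : ℕ) x, (s.restrictScalars k ^ n) x = (s ^ n) x :=
    ftop_pow (RingEquiv.refl Ω) fun _ => rfl
  have h8 : ∀ y, ψ (algebraMap K Ω y) = algebraMap K Ω y := fun y => by
    have e : (ψ.toAlgHom.comp (IsScalarTower.toAlgHom k K Ω)).toLinearMap =
        (IsScalarTower.toAlgHom k K Ω).toLinearMap := β.ext fun i =>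
      (h6 _ (Finset.mem_union_right _ (Finset.mem_image_of_mem _ (Finset.mem_univ i)))).trans
        ((hs a _).trans ((s ^ a).commutes _))
    exact LinearMap.congr_fun e y
  exact ⟨R, p, AlgEquiv.ofRingEquiv (f := ψ.toRingEquiv) h8, a, b, h1, h2, h3, h4,
    fun x hx => h5 x (Finset.mem_union_left _ hx),
    fun x hx => (h6 x (Finset.mem_union_left _ hx)).trans (hs a x),
    fun x hx => (h7 x (Finset.mem_union_left _ hx)).trans
      (ftop_pow (RingEquiv.refl Ω) (g := ψ) (k := AlgEquiv.ofRingEquiv h8) (fun _ => rfl) b x)⟩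

theorem t_tower {K : Type} [Field K] [CharZero K] (s : Finset K) :
    ∃ (k : Type) (_ : Field k) (_ : CharZero k) (_ : Algebra k K),
      FD k ∧ HI k ∧ ∀ x ∈ s, IsAlgebraic k x := by
  classical
  induction s using Finset.induction_on with
  | empty => exact ⟨ℚ, _, inferInstance, inferInstance, fd_rat, hi_rat, by simp⟩
  | insert x s _ ih =>
    obtain ⟨k, _, _, _, h1, h2, h3⟩ := ih
    by_cases hx : IsAlgebraic k x
    · exact ⟨k, _, inferInstance, inferInstance, h1, h2, by simpa [hx] using h3⟩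
    have hi : Function.Injective (aeval x : k[X] →ₐ[k] K) :=
      transcendental_iff_injective.1 hx
    let j : RatFunc k →ₐ[k] K := IsFractionRing.liftAlgHom hi
    let _ : Algebra (RatFunc k) K := j.toRingHom.toAlgebra
    have : IsScalarTower k (RatFunc k) K :=
      IsScalarTower.of_algebraMap_eq fun c => (j.commutes c).symm
    have e : algebraMap (RatFunc k) K (algebraMap k[X] _ X) = x :=
      (IsFractionRing.lift_algebraMap hi X).trans (aeval_X x)
    refine ⟨RatFunc k, _, inferInstance, inferInstance, fd_step h1 h2, hi_ratFunc k,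
      fun y hy => ?_⟩
    rcases Finset.mem_insert.1 hy with rfl | hy
    · exact e ▸ isAlgebraic_algebraMap _
    · exact (h3 y hy).tower_top _

theorem fd_fg {K : Type} [Field K] [CharZero K]
    (h : ∃ s : Finset K, Subfield.closure (s : Set K) = ⊤) : FD K := by
  obtain ⟨s, hs⟩ := h
  obtain ⟨k, _, _, _, h1, -, h3⟩ := t_tower s
  have h4 : IntermediateField.adjoin k (s : Set K) = ⊤ := eq_top_iff.2 fun x _ =>
    (Subfield.closure_le (t := (IntermediateField.adjoin k (s : Set K)).toSubfield)).2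
      (IntermediateField.subset_adjoin k _) (hs ▸ Subfield.mem_top x)
  have h5 := IntermediateField.finiteDimensional_adjoin (K := k) (S := (s : Set K))
    fun x hx => (h3 x hx).isIntegral
  rw [h4] at h5
  have : Module.Finite k K := .equiv IntermediateField.topEquiv.toLinearEquiv
  exact h1.finite

end Pool.Agent.Lib.MP_d61fbb_ag.FG
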