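import Pool.Agent.Lib.MP_d61fbb_ag.FG.V1

/-! The decomposition group surjects onto the Galois group of the residue field. -/

set_option autoImplicit false

noncomputable section

namespace Pool.Agent.Lib.MP_d61fbb_ag.FG

open Polynomial IsLocalRing Pool.Agent.Lib.MP_d61fbb_ag.SQ

open scoped Pointwise in
/-- Automorphisms of the residue ring that fix the fixed elements lift. -/
theorem v2_lift {B G : Type} [CommRing B] [Group G] [MulSemiringAction G B] [TopologicalSpace G]
    [CompactSpace G] [TotallyDisconnectedSpace G] [IsTopologicalGroup G]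
    (ho : ∀ x : B, IsOpen (MulAction.stabilizer G x : Set G)) (P : Ideal B)
    [P.IsPrime] (σ : (B ⧸ P) ≃+* (B ⧸ P))
    (h : ∀ x : B, (∀ g : G, g • x = x) → σ (Ideal.Quotient.mk P x) = Ideal.Quotient.mk P x) :
    ∃ g : G, ∀ x : B, Ideal.Quotient.mk P (g • x) = σ (Ideal.Quotient.mk P x) := by
  let : TopologicalSpace B := ⊥
  have : DiscreteTopology B := ⟨rfl⟩
  have : ContinuousSMul G B := continuousSMul_iff_stabilizer_isOpen.2 ho
  have : Algebra.IsInvariant (FixedPoints.subring B G) B G := ⟨fun b hb => ⟨⟨b, hb⟩, rfl⟩⟩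
  obtain ⟨g, hg⟩ := Ideal.Quotient.stabilizerHom_surjective_of_profinite (G := G)
    (P.under (FixedPoints.subring B G)) P (AlgEquiv.ofRingEquiv (f := σ) fun a => by
      obtain ⟨a, rfl⟩ := Ideal.Quotient.mk_surjective a
      exact h a.1 a.2)
  exact ⟨g.1, fun x => DFunLike.congr_fun hg (Ideal.Quotient.mk P x)⟩

variable {k Ω : Type} [Field k] [Field Ω] [Algebra (RatFunc k) Ω] [Algebra k[X] Ω]
  [IsScalarTower k[X] (RatFunc k) Ω] [IsAlgClosure (RatFunc k) Ω]

section

variable {V : ValuationSubring Ω} [Algebra k (ResidueField V)] {a : k}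

/-- The integral closure of the polynomial ring inside the valuation ring. -/
def v2Inc (h : Over V a) : integralClosure k[X] Ω →+* V :=
  RingHom.codRestrict (algebraMap (integralClosure k[X] Ω) Ω) V fun x => h.mem x.2

/-- The residue map on the integral closure. -/
def v2Res (h : Over V a) : integralClosure k[X] Ω →+* ResidueField V :=
  (residue V).comp (v2Inc h)

theorem v2_res_eq (h : Over V a) (b : integralClosure k[X] Ω) (y : V) (hy : (y : Ω) = b) :
    v2Res h b = residue V y := by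
  have : v2Inc h b = y := Subtype.ext hy.symm
  rw [v2Res, RingHom.comp_apply, this]

theorem v2_ne (h : Over V a) (b : integralClosure k[X] Ω) :
    v2Res h b ≠ 0 ↔ V.valuation (b : Ω) = 1 := by
  rw [v2Res, RingHom.comp_apply, Ne, residue_eq_zero_iff, mem_maximalIdeal, mem_nonunits_iff,
    not_not, V.valuation_eq_one_iff]
  rfl

theorem v2_poly (h : Over V a) (p : k[X]) :
    v2Res h (algebraMap k[X] (integralClosure k[X] Ω) p) =
      algebraMap k (ResidueField V) (p.eval a) := by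
  obtain ⟨y, h1, h2⟩ := h p
  rw [← h2]
  exact v2_res_eq h _ y h1

theorem v2_surj (h : Over V a) : Function.Surjective (v2Res h) := by
  intro r
  obtain ⟨x, rfl⟩ := residue_surjective r
  obtain ⟨s, h1, h2, h3⟩ := h.loc x
  have := h.closure.isAlgebraic
  let S : Subalgebra k (ResidueField V) :=
    { (v2Res h).range.toSubsemiring with
      algebraMap_mem' := fun c => ⟨algebraMap k[X] _ (C c), by rw [v2_poly, eval_C]⟩ }
  have h4 : v2Res h ⟨s, h1⟩ ≠ 0 := (v2_ne h _).2 h2
  obtain ⟨u, hu⟩ : (v2Res h ⟨s, h1⟩)⁻¹ ∈ S :=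
    Subalgebra.inv_mem_of_algebraic (A := S) (x := ⟨v2Res h ⟨s, h1⟩, ⟨_, rfl⟩⟩)
      (Algebra.IsAlgebraic.isAlgebraic _)
  refine ⟨u * ⟨s * x, h3⟩, ?_⟩
  rw [map_mul, hu, v2_res_eq h ⟨s * x, h3⟩ (v2Inc h ⟨s, h1⟩ * x) rfl, map_mul, ← mul_assoc]
  change (v2Res h ⟨s, h1⟩)⁻¹ * v2Res h ⟨s, h1⟩ * _ = _
  rw [inv_mul_cancel₀ h4, one_mul]

theorem v2_mem (h : Over V a) (τ : ResidueField V ≃ₐ[k] ResidueField V)
    (g : Ω ≃ₐ[RatFunc k] Ω) (hg : ∀ b : integralClosure k[X] Ω, v2Res h (g • b) = τ (v2Res h b))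
    (x : V) : g x ∈ V := by
  obtain ⟨s, h1, h2, h3⟩ := h.loc x
  have h4 : V.valuation (g s) = 1 := (v2_ne h (g • ⟨s, h1⟩)).1 (by
    rw [hg]
    exact (map_ne_zero τ).2 ((v2_ne h _).2 h2))
  have h5 : V.valuation (g (s * x)) ≤ 1 :=
    (V.valuation_le_one_iff _).2 (h.mem (g • (⟨s * x, h3⟩ : integralClosure k[X] Ω)).2)
  rw [map_mul, map_mul, h4, one_mul] at h5
  exact (V.valuation_le_one_iff _).1 h5

theorem v2_ind (h : Over V a) (τ : ResidueField V ≃ₐ[k] ResidueField V)
    (g : Ω ≃ₐ[RatFunc k] Ω)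
    (hg : ∀ b : integralClosure k[X] Ω, v2Res h (g • b) = τ (v2Res h b)) : Ind V g τ := by
  refine ⟨fun x => ⟨fun hx => ?_, fun hx => v2_mem h τ g hg ⟨x, hx⟩⟩, fun x y hxy => ?_⟩
  · have := v2_mem h τ.symm g⁻¹ (fun b => by
      rw [AlgEquiv.eq_symm_apply, ← hg, smul_inv_smul]) ⟨g x, hx⟩
    simpa using this
  · obtain ⟨s, h1, h2, h3⟩ := h.loc x
    have h4 : τ (v2Res h ⟨s, h1⟩) ≠ 0 := (map_ne_zero τ).2 ((v2_ne h _).2 h2)
    have h5 := hg ⟨s * x, h3⟩
    rw [v2_res_eq h ⟨s * x, h3⟩ (v2Inc h ⟨s, h1⟩ * x) rfl,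
      v2_res_eq h _ (v2Inc h (g • ⟨s, h1⟩) * y) (by
        change g s * (y : Ω) = g (s * x)
        rw [map_mul, hxy]), map_mul, map_mul, map_mul] at h5
    change v2Res h (g • ⟨s, h1⟩) * _ = τ (v2Res h ⟨s, h1⟩) * _ at h5
    rw [hg] at h5
    exact mul_left_cancel₀ h4 h5

end

omit [Algebra k[X] Ω] [IsScalarTower k[X] (RatFunc k) Ω] in
theorem v2_galois [CharZero k] : IsGalois (RatFunc k) Ω := by
  have : CharZero (RatFunc k) := algebraRat.charZero _
  infer_instance

omit [IsAlgClosure (RatFunc k) Ω] in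
theorem v2_base {y : RatFunc k} (hy : IsIntegral k[X] (algebraMap (RatFunc k) Ω y)) :
    ∃ p : k[X], algebraMap k[X] (RatFunc k) p = y :=
  IsIntegrallyClosed.isIntegral_iff.1
    ((isIntegral_algebraMap_iff (algebraMap (RatFunc k) Ω).injective).1 hy)

theorem Over.lift [CharZero k] {V : ValuationSubring Ω} [Algebra k (ResidueField V)] {a : k}
    (h : Over V a) (τ : ResidueField V ≃ₐ[k] ResidueField V) :
    ∃ g : Ω ≃ₐ[RatFunc k] Ω, Ind V g τ := by
  have := v2_galois (k := k) (Ω := Ω)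
  have : (RingHom.ker (v2Res h)).IsPrime := RingHom.ker_isPrime _
  let e := RingHom.quotientKerEquivOfSurjective (v2_surj h)
  have he (b : integralClosure k[X] Ω) : e (Ideal.Quotient.mk _ b) = v2Res h b := rfl
  obtain ⟨g, hg⟩ := v2_lift (G := Ω ≃ₐ[RatFunc k] Ω) (B := integralClosure k[X] Ω) (fun x => by
      have : MulAction.stabilizer (Ω ≃ₐ[RatFunc k] Ω) x =
          MulAction.stabilizer (Ω ≃ₐ[RatFunc k] Ω) (x : Ω) := by
        ext g
        simp only [MulAction.mem_stabilizer_iff, Subtype.ext_iff, integralClosure.coe_smul]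
      rw [this]
      exact stabilizer_isOpen_of_isIntegral _) (RingHom.ker (v2Res h))
    (e.trans (τ.toRingEquiv.trans e.symm)) fun x hx => by
      obtain ⟨q, hq⟩ := (InfiniteGalois.mem_range_algebraMap_iff_fixed (k := RatFunc k) (x : Ω)).2
        fun g => congrArg Subtype.val (hx g)
      obtain ⟨p, rfl⟩ := v2_base (Ω := Ω) (y := q) (hq ▸ x.2)
      have hp : x = algebraMap k[X] _ p := Subtype.ext (by
        rw [← hq, ← IsScalarTower.algebraMap_apply]
        rfl)
      apply e.injective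
      rw [RingEquiv.trans_apply, RingEquiv.trans_apply, e.apply_symm_apply, he, hp, v2_poly]
      exact τ.commutes _
  refine ⟨g, v2_ind h τ g fun b => ?_⟩
  have := congrArg e (hg b)
  rw [RingEquiv.trans_apply, RingEquiv.trans_apply, e.apply_symm_apply, he, he] at this
  exact this

/-- Every finite set lies in a finite set stable under the Galois group. -/
theorem exists_stable {K L : Type} [Field K] [Field L] [Algebra K L] [Algebra.IsAlgebraic K L]
    (F : Finset L) : ∃ F' : Finset L, F ⊆ F' ∧ ∀ (g : L ≃ₐ[K] L), ∀ x ∈ F', g x ∈ F' := by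
  classical
  have hi (x : L) : minpoly K x ≠ 0 := minpoly.ne_zero (Algebra.IsIntegral.isIntegral x)
  refine ⟨F.biUnion fun x => ((minpoly K x).aroots L).toFinset, fun x hx => ?_,
    fun g x hx => ?_⟩
  · exact Finset.mem_biUnion.2 ⟨x, hx, Multiset.mem_toFinset.2
      (mem_aroots.2 ⟨hi x, minpoly.aeval K x⟩)⟩
  · obtain ⟨y, hy, hx⟩ := Finset.mem_biUnion.1 hx
    refine Finset.mem_biUnion.2 ⟨y, hy, Multiset.mem_toFinset.2 (mem_aroots.2 ⟨hi y, ?_⟩)⟩
    rw [aeval_algHom_apply, (mem_aroots.1 (Multiset.mem_toFinset.1 hx)).2, map_zero]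

/-- A proper open subgroup fixes an integral element outside the base field. -/
theorem gal_theta [CharZero k] (F : Finset Ω) {H : Subgroup (Ω ≃ₐ[RatFunc k] Ω)}
    (hF : ∀ g : Ω ≃ₐ[RatFunc k] Ω, (∀ x ∈ F, g x = x) → g ∈ H) (hH : H ≠ ⊤) :
    ∃ θ : Ω, IsIntegral k[X] θ ∧ (∀ g ∈ H, g θ = θ) ∧ ∀ y : RatFunc k, algebraMap _ Ω y ≠ θ := by
  have := v2_galois (k := k) (Ω := Ω)
  have hfin : FiniteDimensional (RatFunc k) (IntermediateField.adjoin (RatFunc k) (F : Set Ω)) :=
    IntermediateField.finiteDimensional_adjoin fun x _ => Algebra.IsIntegral.isIntegral x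
  have hle : (IntermediateField.adjoin (RatFunc k) (F : Set Ω)).fixingSubgroup ≤ H := fun g hg =>
    hF g fun x hx => (IntermediateField.mem_fixingSubgroup_iff _ g).1 hg x
      (IntermediateField.subset_adjoin _ _ hx)
  have ho : IsOpen (H : Set (Ω ≃ₐ[RatFunc k] Ω)) :=
    Subgroup.isOpen_mono hle (IntermediateField.fixingSubgroup_isOpen _)
  have hfix := InfiniteGalois.fixingSubgroup_fixedField
    (⟨H, H.isClosed_of_isOpen ho⟩ : ClosedSubgroup (Ω ≃ₐ[RatFunc k] Ω))
  obtain ⟨x, hx, hx'⟩ : ∃ x ∈ IntermediateField.fixedField H,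
      x ∉ (⊥ : IntermediateField (RatFunc k) Ω) := by
    by_contra hc
    have hb : IntermediateField.fixedField H = ⊥ :=
      eq_bot_iff.2 fun x hx => by_contra fun hx' => hc ⟨x, hx, hx'⟩
    change (IntermediateField.fixedField H).fixingSubgroup = H at hfix
    rw [hb, IntermediateField.fixingSubgroup_bot] at hfix
    exact hH hfix.symm
  have hinj : Function.Injective (algebraMap k[X] Ω) := by
    rw [IsScalarTower.algebraMap_eq k[X] (RatFunc k) Ω]
    exact (algebraMap (RatFunc k) Ω).injective.comp (IsFractionRing.injective k[X] (RatFunc k))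
  have halg : IsAlgebraic k[X] x :=
    (IsFractionRing.isAlgebraic_iff k[X] (RatFunc k) Ω).2 (Algebra.IsAlgebraic.isAlgebraic x)
  obtain ⟨c, hc, hcx⟩ := halg.exists_integral_multiple
  have hc' : algebraMap k[X] (RatFunc k) c ≠ 0 :=
    (map_ne_zero_iff _ (IsFractionRing.injective k[X] (RatFunc k))).2 hc
  have hcs : c • x = algebraMap (RatFunc k) Ω (algebraMap k[X] (RatFunc k) c) * x := by
    rw [Algebra.smul_def, IsScalarTower.algebraMap_apply k[X] (RatFunc k) Ω]
  refine ⟨c • x, hcx, fun g hg => ?_, fun y hy => hx' ?_⟩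
  · rw [hcs, map_mul, g.commutes, (IntermediateField.mem_fixedField_iff H x).1 hx g hg]
  · refine IntermediateField.mem_bot.2 ⟨(algebraMap k[X] (RatFunc k) c)⁻¹ * y, ?_⟩
    rw [map_mul, hy, hcs, ← mul_assoc, ← map_mul, inv_mul_cancel₀ hc', map_one, one_mul]

end Pool.Agent.Lib.MP_d61fbb_ag.FG
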