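import Pool.Agent.Lib.MP_d61fbb_ag.SQ.CStmt

/-! Frobenius density and the irreducibility property of a field. -/

set_option autoImplicit false

noncomputable section

namespace Pool.Agent.Lib.MP_d61fbb_ag.FG

open Polynomial IsLocalRing Pool.Agent.Lib.MP_d61fbb_ag.SQ

/-- Every automorphism of an algebraic closure of `k` generates on a finite set the same group as
a Frobenius automorphism. -/
def FD (k : Type) [Field k] : Prop :=
  ∀ (Ω : Type) [Field Ω] [Algebra k Ω] [IsAlgClosure k Ω] (F : Finset Ω) (s : Ω ≃ₐ[k] Ω) (Bd : ℕ),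
    ∃ (R : ValuationSubring Ω) (p : ℕ) (φ : Ω ≃ₐ[k] Ω) (a b : ℕ),
      p.Prime ∧ Bd < p ∧ (p : ResidueField R) = 0 ∧ FrobAt R p φ.toRingEquiv ∧
      (∀ x ∈ F, x ≠ 0 → R.valuation x = 1) ∧ (∀ x ∈ F, φ x = (s ^ a) x) ∧
      ∀ x ∈ F, s x = (φ ^ b) x

/-- Finitely many monic separable polynomials without a root in `k(t)` have a common
specialisation without a root in `k`. -/
def HI (k : Type) [Field k] : Prop :=
  ∀ (ι : Type) [Finite ι] (g : ι → k[X][X]) (h : k[X]), h ≠ 0 → (∀ j, (g j).Monic) →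
    (∀ j, ((g j).map (algebraMap k[X] (RatFunc k))).Separable) →
    (∀ j (x : RatFunc k), aeval x (g j) ≠ 0) →
    ∃ a : k, h.eval a ≠ 0 ∧ ∀ j x, (g j).evalEval a x ≠ 0

/-- The valuation ring `V` lies over the point `t = a` of the affine line. -/
def Over {k Ω : Type} [Field k] [Field Ω] [Algebra k[X] Ω] (V : ValuationSubring Ω)
    [Algebra k (ResidueField V)] (a : k) : Prop :=
  ∀ p : k[X], ∃ y : V, (y : Ω) = algebraMap k[X] Ω p ∧
    residue V y = algebraMap k (ResidueField V) (p.eval a)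

/-- The automorphism `g` preserves `V` and induces `τ` on the residue field. -/
def Ind {Ω : Type} [Field Ω] (V : ValuationSubring Ω) (g : Ω → Ω)
    (τ : ResidueField V → ResidueField V) : Prop :=
  (∀ x, g x ∈ V ↔ x ∈ V) ∧ ∀ x y : V, g x = y → residue V y = τ (residue V x)

end Pool.Agent.Lib.MP_d61fbb_ag.FG
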