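import Pool.Agent.Lib.MP_d61fbb_ag.WP.Defs

/-! Twisted unitary similitudes. -/

set_option autoImplicit false

noncomputable section

namespace Pool.Agent.Lib.MP_d61fbb_ag.FG

open Polynomial Matrix Pool.Agent.Lib.MP_d61fbb_ag.SQ Pool.Agent.Lib.MP_d61fbb_ag.WP

/-- The action of the automorphism `y ↦ z y` on the class group. -/
def rotb {K : Type} [Field K] {q : ℕ} (f : K[X]) {z : AlgebraicClosure K}
    (hz : IsPrimitiveRoot z q) : AddMonoid.End (Jac (AlgebraicClosure K) q (bar f)) :=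
  pic (tw (RingHom.id _) z Polynomial.map_id hz.pow_eq_one)

variable {l : ℕ} [Fact l.Prime] {k A ι : Type} [Field k] [AddCommGroup A] [Fintype ι]
  [DecidableEq ι]

/-- `g` conjugates `Z` to `Z ^ a` for some `a ∈ S` and is a similitude of the form `B`. -/
def TU (S : Set ℕ) (Z B : Matrix ι ι ℚ_[l]) (g : Matrix ι ι (PadicAlgCl l)) : Prop :=
  (∃ a ∈ S, g * Z.map (algebraMap _ _) = (Z ^ a).map (algebraMap _ _) * g) ∧
    ∃ ν : PadicAlgCl l, gᵀ * B.map (algebraMap _ _) * g = ν • B.map (algebraMap _ _)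

/-- In Tate coordinates on the image of `1 - δ ^ m` the Zariski closure of the image of `Γ` is
the group of similitudes of the pairing `W` conjugating `δ` to `δ ^ a` with `a ∈ S`. -/
def FullT (l : ℕ) [Fact l.Prime] {Γ : Type} (ι : Type) [Fintype ι] [DecidableEq ι]
    (W : ℕ → A → A → k → Prop) (δ : AddMonoid.End A) (m : ℕ) (act : Γ → AddMonoid.End A)
    (S : Set ℕ) : Prop :=
  ∃ (e : (ι → ℚ_[l]) →+ A) (ω : ℚ_[l] →+ Additive kˣ) (Z B : Matrix ι ι ℚ_[l])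
    (ρ : Γ → Matrix ι ι ℚ_[l]),
    TateOn e (1 - δ ^ m) ∧ Rep e δ Z ∧ (∀ γ, Rep e (act γ) (ρ γ)) ∧ Gram W e ω B ∧ B.det ≠ 0 ∧
    ∀ g : Matrix ι ι (PadicAlgCl l), g.det ≠ 0 → (Zar (Set.range ρ) g ↔ TU S Z B g)

end Pool.Agent.Lib.MP_d61fbb_ag.FG
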