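import Pool.Agent.Lib.MP_d61fbb_ag.FG.D
import Pool.Agent.Lib.MP_d61fbb_ag.SQ.M2
import Pool.Agent.Lib.MP_d61fbb_ag.SQ.M5
import Pool.Agent.Lib.MP_d61fbb_ag.SQ.CTop
import Pool.Agent.Lib.MP_d61fbb_ag.SQ.ETop

/-! The abstract input for the stabiliser of the root of unity. -/

set_option autoImplicit false

noncomputable section

namespace Pool.Agent.Lib.MP_d61fbb_ag.FG

open Matrix Equiv IsLocalRing Polynomial Pool.Agent.Lib.MP_d61fbb_ag.SQ

theorem geo_of' {K : Type} [Field K] [CharZero K] (hF : FD K) {l q r0 : ℕ} [Fact l.Prime]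
    [NeZero q] (hq : q = l ^ (r0 + 1)) (hl : 2 < q) {z : AlgebraicClosure K}
    (hz : IsPrimitiveRoot z q) {d : ℕ} (hn : ¬ l ∣ d + 1) {f : K[X]}
    {r : Fin (d + 1) → AlgebraicClosure K} (hr : Function.Injective r)
    (hf : bar f = ∏ i, (X - C (r i))) {Γ : Type} [Group Γ]
    (j : Γ →* (AlgebraicClosure K ≃ₐ[K] AlgebraicClosure K))
    (hj : ∀ γ, (∃ γ', j γ' = γ) ↔ γ z = z)
    (act : Γ →* AddMonoid.End (Jac (AlgebraicClosure K) q (bar f)))
    (ha : ∀ γ, act γ = gal q f (j γ)) (pm : Γ →* Perm (Fin (d + 1)))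
    (hp : ∀ γ i, j γ (r i) = r (pm γ i)) (hG : Big pm.range) (nu : Γ →* ℤ_[l]ˣ)
    (hnu : ∀ γ, nu γ = cyclotomicCharacter _ l (j γ).toRingEquiv) :
    ∃ P, JData q d (zt (bar f) hz) P ∧ Geo l q d (zt (bar f) hz) P act pm nu := by
  classical
  have hp' : l.Prime := Fact.out
  have hco : q.Coprime (d + 1) := hq ▸ Nat.Coprime.pow_left _ (hp'.coprime_iff_not_dvd.2 hn)
  have hpp : IsPrimePow q := hq ▸ hp'.isPrimePow.pow (Nat.succ_ne_zero _)
  have H : Hyp q d (bar f) r := ⟨by omega, Nat.cast_ne_zero.2 (NeZero.ne q), hco, hr, hf⟩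
  have hm : ∀ γ : AlgebraicClosure K ≃ₐ[K] AlgebraicClosure K,
      (bar f).map γ.toRingEquiv.toRingHom = bar f := fun γ => by
    rw [Polynomial.map_map]
    exact congrArg (Polynomial.map · f) (RingHom.ext fun a => γ.commutes a)
  have ha' : ∀ γ, act γ = sg q (j γ).toRingEquiv (hm _) := ha
  have hz' : ∀ γ, j γ z = z := fun γ => (hj _).1 ⟨γ, rfl⟩
  obtain ⟨P, h1, h2⟩ := curveStmt _ q d _ r H _ hz
  refine ⟨P, h1, hl, hn, hG, fun γ => ?_, fun γ i => ?_, fun s hs F j0 => ?_⟩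
  · rw [ha']
    exact sg_zt _ hz (hz' γ)
  · rw [ha']
    exact h2 _ _ _ (hp γ) i
  choose Fs hFs using contStmt _ q d _ r H
  obtain ⟨x0, hx0⟩ := cyc_small (k := AlgebraicClosure K) (l := l) j0
  obtain ⟨R, p, φ0, a, b, k1, k2, k3, k4, k5, k6, k7⟩ := hF (AlgebraicClosure K)
    (insert x0 (F.biUnion Fs ∪ (Finset.univ.image r ∪ (Finset.univ.image
      (fun i : Fin (d + 1) × Fin (d + 1) => r i.1 - r i.2) ∪ {z})))) (j s) (d ^ q + l)
  simp only [Finset.mem_insert, Finset.mem_union, Finset.mem_biUnion, Finset.mem_image,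
    Finset.mem_univ, true_and, Finset.mem_singleton] at k5 k6 k7
  obtain ⟨φ, rfl⟩ := (hj φ0).2 ((k6 z (.inr (.inr (.inr (.inr rfl))))).trans (by
    rw [← map_pow]
    exact hz' _))
  have m1 : ∀ i, r i ∈ R := fun i => by
    by_cases e : r i = 0
    · exact e ▸ R.zero_mem
    · exact (R.valuation_le_one_iff _).1 (k5 _ (.inr (.inr (.inl ⟨i, rfl⟩))) e).le
  have m2 : Function.Injective fun i => rs R (r i) := fun i i' e => by
    by_contra ne
    exact rs_inj (m1 i) (m1 i') (k5 _ (.inr (.inr (.inr (.inl ⟨(i, i'), rfl⟩))))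
      (sub_ne_zero.2 (hr.ne ne))) e
  have m3 : (l : ResidueField R) ≠ 0 := fun e => by
    have k : IsCoprime (p : ResidueField R) l :=
      ((Nat.coprime_primes k1 hp').2 (by omega)).cast
    rw [k3, e] at k
    exact not_isCoprime_zero_zero k
  have m4 : (j φ).toRingEquiv z = z := hz' φ
  have m5 : q ∣ p - 1 := by
    have k := k4.root (N := q) (by rw [hq, Nat.cast_pow]; exact pow_ne_zero _ m3) hz.pow_eq_one
    rw [m4, ← Nat.sub_add_cancel k1.one_le, pow_succ, eq_comm,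
      mul_eq_right₀ (hz.ne_zero (NeZero.ne q))] at k
    exact hz.dvd_of_pow_eq_one _ k
  have m6 : pm φ = pm s ^ a := Equiv.ext fun i => hr (by
    rw [← hp, ← map_pow, ← hp, map_pow]
    exact k6 _ (.inr (.inr (.inl ⟨i, rfl⟩))))
  have m7 : pm s = pm φ ^ b := Equiv.ext fun i => hr (by
    rw [← hp, ← map_pow, ← hp, map_pow]
    exact k7 _ (.inr (.inr (.inl ⟨i, rfl⟩))))
  have m0 : Subgroup.zpowers (pm s) = Subgroup.zpowers (pm φ) := le_antisymm
    (Subgroup.zpowers_le.2 (m7 ▸ Subgroup.npow_mem_zpowers _ _))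
    (Subgroup.zpowers_le.2 (m6 ▸ Subgroup.npow_mem_zpowers _ _))
  have m8 : Good (pm φ) := hs.congr m0
  have m9 : ∀ x, j s x = (j φ ^ b) x → (j (s⁻¹ * φ ^ b)).toRingEquiv x = x := fun x e => by
    rw [map_mul, map_inv, map_pow]
    exact (congrArg (j s).symm e).symm.trans ((j s).symm_apply_apply x)
  obtain ⟨w, w1, w2⟩ := relStmt _ q d _ r H _ hz R p k1 k3 m5 m1 m2 _ (hm (j φ)) k4 m4
  refine ⟨φ, b, p, cpoly p q (fun i => -rs R (r i)) w, m0, fun x hx => ?_, ?_, ?_, k1.one_lt,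
    fun ζ hζ => arithStmt _ p q d _ w (pm φ) k1 k3 hpp hl hco hG.le m5 (by omega)
      (neg_injective.comp m2) (fun i => ?_) m8.1 w1 _ ζ hζ, ?_⟩
  · rw [ha']
    exact hFs x _ _ fun y hy => m9 y (k7 y (.inr (.inl ⟨x, hx, hy⟩)))
  · rw [hnu]
    exact hx0 _ (m9 _ (k7 _ (.inl rfl)))
  · rw [hnu]
    exact k4.cyc m3
  · have : Fact p.Prime := ⟨k1⟩
    have : CharP (ResidueField R) p := (CharP.charP_iff_prime_eq_zero k1).2 k3
    show (-rs R (r i)) ^ p = -rs R (r (pm φ i))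
    rw [← hp, neg_pow, neg_one_pow_char, neg_one_mul]
    exact congrArg _ (k4.rs (m1 i)).symm
  · rw [ha']
    exact w2

end Pool.Agent.Lib.MP_d61fbb_ag.FG
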