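import Pool.Agent.Lib.MP_d61fbb_ag.WP.Defs
import Pool.Agent.Lib.MP_0d42ed_ag.TP.Out

/-! Tate classes are polynomials in divisor classes. -/

set_option autoImplicit false

noncomputable section

namespace Pool.Agent.Lib.MP_d61fbb_ag.FG

open Matrix Pool.Agent.Lib.MP_0d42ed_ag.TP Pool.Agent.Lib.MP_d61fbb_ag.SQ Pool.Agent.Lib.MP_d61fbb_ag.WP

section

variable {F V ι Γ : Type} [Field F] [AddCommGroup V] [Module F V] [Fintype ι] [DecidableEq ι]
  [Group Γ]

/-- The Tate classes for all subgroups of finite index are polynomials in the classes of the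
forms `B Z ^ j`. -/
def GenLe {m : ℕ} (σ : Γ → V →ₗ[F] V) (χ : Γ → F) (b : Fin m → ι → V) (Z B : Matrix ι ι F) :
    Prop :=
  ∀ (i : ℕ) (U : Subgroup Γ), U.FiniteIndex → tateV σ χ U i ≤ dvV b Z B ^ i

/-- The same for `m` copies of the space of row vectors, on which `γ` acts by pull-back. -/
def PowLe (ρ : Γ → Matrix ι ι F) (χ : Γ → F) (Z B : Matrix ι ι F) (m : ℕ) : Prop :=
  GenLe (fun γ => (ρ γ).vecMulLinear.compLeft (Fin m)) χ
    (fun (a : Fin m) u => Pi.single a (Pi.single u 1)) Z B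

end

/-- In Tate coordinates on the image of `1 - δ ^ n`, with `B` the matrix of the pairing `W`, every
Tate class on every power is a polynomial in the classes of the forms `B Z ^ j`. -/
def TateT {l : ℕ} [Fact l.Prime] {k A Γ : Type} [Field k] [AddCommGroup A] [Group Γ] (ι : Type)
    [Fintype ι] [DecidableEq ι] (W : ℕ → A → A → k → Prop) (δ : AddMonoid.End A) (n : ℕ)
    (act : Γ → AddMonoid.End A) (χ : Γ → ℤ_[l]) : Prop :=
  ∃ (e : (ι → ℚ_[l]) →+ A) (ω : ℚ_[l] →+ Additive kˣ) (Z B : Matrix ι ι ℚ_[l])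
    (ρ : Γ → Matrix ι ι ℚ_[l]),
    TateOn e (1 - δ ^ n) ∧ Rep e δ Z ∧ (∀ γ, Rep e (act γ) (ρ γ)) ∧ Gram W e ω B ∧
    ∀ m, PowLe ρ (fun γ => (χ γ : ℚ_[l])) Z B m

end Pool.Agent.Lib.MP_d61fbb_ag.FG
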