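import Pool.Agent.Lib.MP_d61fbb_ag.FG.Defs
import Pool.Agent.Lib.MP_d61fbb_ag.FG.OutT
import Pool.Agent.Lib.MP_d61fbb_ag.WP.Top

/-! Passage from a subgroup of finite index to the whole group. -/

set_option autoImplicit false

noncomputable section

namespace Pool.Agent.Lib.MP_d61fbb_ag.FG

open Matrix Equiv Polynomial Pool.Agent.Lib.MP_0d42ed_ag.TP Pool.Agent.Lib.MP_d61fbb_ag.SQ Pool.Agent.Lib.MP_d61fbb_ag.WP

variable {l : ℕ} [Fact l.Prime] {ι : Type} [Fintype ι] [DecidableEq ι]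

section

variable {A : Type} [AddCommGroup A] {e : (ι → ℚ_[l]) →+ A}

theorem rep_on {η θ : AddMonoid.End A} (he : TateOn e η) (h : ∀ y, ∃ y', η y' = θ (η y)) :
    ∃ M, Rep e θ M := by
  let H := AddMonoidHom.range (η : A →+ A)
  have h1 : ∀ v, e v ∈ H := fun v => ((he.2 _).1 ⟨v, rfl⟩).1
  have h2 : IsTate (e.codRestrict H h1) := ⟨fun v => by
      rw [← he.1 v]
      exact Subtype.ext_iff, fun x => ⟨fun ⟨v, hv⟩ => by
      obtain ⟨k, hk⟩ := ((he.2 _).1 ⟨v, rfl⟩).2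
      exact ⟨k, hv ▸ Subtype.ext hk⟩, fun ⟨k, hk⟩ => by
      obtain ⟨v, hv⟩ := (he.2 x).2 ⟨x.2, k, congrArg Subtype.val hk⟩
      exact ⟨v, Subtype.ext hv⟩⟩⟩
  obtain ⟨M, hM⟩ := rep_exists h2 (AddMonoidHom.mk' (fun y : H => (⟨θ y, by
    obtain ⟨w, hw⟩ := y.2
    exact hw ▸ h w⟩ : H)) fun a b => Subtype.ext (map_add θ _ _))
  exact ⟨M, fun v => congrArg Subtype.val (hM v)⟩

theorem rep_uniq (he : ∀ v, e v = 0 ↔ ∀ i, ‖v i‖ ≤ 1) {θ : AddMonoid.End A}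
    {M M' : Matrix ι ι ℚ_[l]} (h : Rep e θ M) (h' : Rep e θ M') : M = M' :=
  sub_eq_zero.1 (p7_zero he fun v => by
    rw [h.sub h' v, sub_self]
    rfl)

end

theorem zar_mul {S S' : Set (Matrix ι ι ℚ_[l])} {s0 : Matrix ι ι ℚ_[l]}
    (h : ∀ s ∈ S, s0 * s ∈ S') {g : Matrix ι ι (PadicAlgCl l)} (hg : Zar S g) :
    Zar S' (s0.map (algebraMap _ _) * g) := by
  intro p hp
  let P := s0.map (MvPolynomial.C (σ := ι × ι)) * mvPolynomialX ι ι ℚ_[l]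
  have k := hg (MvPolynomial.aeval (fun ij : ι × ι => P ij.1 ij.2) p) fun s hs => by
    rw [← hp _ (h s hs), ← MvPolynomial.coe_aeval_eq_eval, ← MvPolynomial.coe_aeval_eq_eval]
    change MvPolynomial.aeval _ (MvPolynomial.aeval _ p) = MvPolynomial.aeval _ p
    rw [← AlgHom.comp_apply, MvPolynomial.comp_aeval]
    congr 2
    funext ij
    simp [P, Matrix.mul_apply]
  rw [← AlgHom.comp_apply, MvPolynomial.comp_aeval] at k
  rw [← k]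
  congr 2
  funext ij
  simp [P, Matrix.mul_apply]

theorem zar_tw {S T : Set (Matrix ι ι ℚ_[l])} (hT : T.Finite) {Z : Matrix ι ι ℚ_[l]}
    (h : ∀ s ∈ S, ∃ M ∈ T, s * Z = M * s) {g : Matrix ι ι (PadicAlgCl l)} (hg : Zar S g) :
    ∃ M ∈ T, g * Z.map (algebraMap _ _) = M.map (algebraMap _ _) * g := by
  by_contra! k
  have k1 : ∀ M : T, ∃ ij : ι × ι, (g * Z.map (algebraMap _ (PadicAlgCl l))) ij.1 ij.2 ≠
      (M.1.map (algebraMap _ (PadicAlgCl l)) * g) ij.1 ij.2 := fun M => by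
    by_contra! e
    exact k M M.2 (Matrix.ext fun i j => e (i, j))
  choose c hc using k1
  have := hT.fintype
  have := hg (∏ M : T, (mvPolynomialX ι ι ℚ_[l] * Z.map (MvPolynomial.C (σ := ι × ι)) -
    M.1.map (MvPolynomial.C (σ := ι × ι)) * mvPolynomialX ι ι ℚ_[l]) (c M).1 (c M).2) fun s hs => by
      obtain ⟨M, hM, e⟩ := h s hs
      rw [map_prod]
      refine Finset.prod_eq_zero (Finset.mem_univ ⟨M, hM⟩) ?_
      simpa [Matrix.mul_apply, sub_eq_zero] using congrFun (congrFun e (c ⟨M, hM⟩).1) (c ⟨M, hM⟩).2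
  rw [map_prod, Finset.prod_eq_zero_iff] at this
  obtain ⟨M, -, e⟩ := this
  refine hc M ?_
  simpa [Matrix.mul_apply, sub_eq_zero] using e

/-- The Zariski closure of the whole group from that of the subgroup commuting with `Z`. -/
theorem zar_tu {Γ Γ' : Type} [Group Γ] {j : Γ' → Γ} {ρ : Γ →* Matrix ι ι ℚ_[l]}
    {Z B : Matrix ι ι ℚ_[l]} {χ : Γ → ℚ_[l]} {q : ℕ} (hq : q ≠ 0) (k1 : Z ^ q = 1) (hB : B ≠ 0)
    (hρ : ∀ γ, (ρ γ)ᵀ * B * ρ γ = χ γ • B) {S : Set ℕ}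
    (h1 : ∀ γ, ∃ a ∈ S, ρ γ * Z = Z ^ a * ρ γ) (h2 : ∀ a ∈ S, ∃ γ, ρ γ * Z = Z ^ a * ρ γ)
    (hz : ∀ g : Matrix ι ι (PadicAlgCl l), g.det ≠ 0 →
      (Zar (Set.range fun γ => ρ (j γ)) g ↔ GU Z B g))
    (g : Matrix ι ι (PadicAlgCl l)) (hg : g.det ≠ 0) : Zar (Set.range ρ) g ↔ TU S Z B g := by
  let φ := algebraMap ℚ_[l] (PadicAlgCl l)
  refine ⟨fun k => ⟨?_, k.sim hB ?_⟩, fun ⟨⟨a, ha, e1⟩, ν, e2⟩ => ?_⟩
  · have hf : {M | ∃ a ∈ S, M = Z ^ a}.Finite :=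
      ((isOfFinOrder_iff_pow_eq_one.2 ⟨q, by omega, k1⟩).finite_powers).subset (by
        rintro _ ⟨a, -, rfl⟩
        exact ⟨a, rfl⟩)
    obtain ⟨_, ⟨a, ha, rfl⟩, e⟩ := zar_tw hf (Z := Z) (by
      rintro _ ⟨γ, rfl⟩
      obtain ⟨a, ha, e⟩ := h1 γ
      exact ⟨_, ⟨a, ha, rfl⟩, e⟩) k
    exact ⟨a, ha, e⟩
  · rintro _ ⟨γ, rfl⟩
    exact ⟨_, hρ γ⟩
  obtain ⟨γ, e3⟩ := h2 a ha
  have i1 : (ρ γ).map φ * (ρ γ⁻¹).map φ = 1 := by
    rw [← Matrix.map_mul, ← map_mul, mul_inv_cancel, map_one, Matrix.map_one _ φ.map_zero φ.map_one]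
  have i2 : (ρ γ⁻¹).map φ * (ρ γ).map φ = 1 := mul_eq_one_comm.1 i1
  have e4 : (ρ γ⁻¹).map φ * (Z ^ a).map φ = Z.map φ * (ρ γ⁻¹).map φ := by
    have e5 : (ρ γ).map φ * Z.map φ = (Z ^ a).map φ * (ρ γ).map φ := by
      rw [← Matrix.map_mul, e3, Matrix.map_mul]
    rw [← Matrix.mul_one (_ * _), ← i1, ← Matrix.mul_assoc, Matrix.mul_assoc _ ((Z ^ a).map φ),
      ← e5, ← Matrix.mul_assoc, i2, Matrix.one_mul]
  have e6 : ((ρ γ⁻¹).map φ)ᵀ * B.map φ * (ρ γ⁻¹).map φ = φ (χ γ⁻¹) • B.map φ := by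
    rw [← transpose_map, ← Matrix.map_mul, ← Matrix.map_mul, hρ]
    ext i j
    simp
  have k := (hz ((ρ γ⁻¹).map φ * g) (by
    rw [det_mul]
    exact mul_ne_zero (isUnit_det_of_right_inverse i2).ne_zero hg)).2
    ⟨by rw [Matrix.mul_assoc, e1, ← Matrix.mul_assoc, e4, Matrix.mul_assoc], φ (χ γ⁻¹) * ν, by
      rw [transpose_mul, Matrix.mul_assoc gᵀ, Matrix.mul_assoc gᵀ, ← Matrix.mul_assoc _ _ g, e6,
        smul_mul_assoc, Matrix.mul_smul, ← Matrix.mul_assoc, e2, smul_smul]⟩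
  have k2 := zar_mul (S' := Set.range ρ) (s0 := ρ γ) (by
    rintro _ ⟨γ', rfl⟩
    exact ⟨γ * j γ', map_mul ρ _ _⟩) k
  rwa [← Matrix.mul_assoc, i1, Matrix.one_mul] at k2

theorem tate_le {F V Γ Γ' : Type} [Field F] [AddCommGroup V] [Module F V] [Group Γ] [Group Γ']
    (j : Γ' →* Γ) (σ : Γ → V →ₗ[F] V) (χ : Γ → F) (U : Subgroup Γ) (i : ℕ) :
    tateV σ χ U i ≤ tateV (fun γ => σ (j γ)) (fun γ => χ (j γ)) (U.comap j) i :=
  inf_le_inf_left _ (le_iInf₂ fun γ hγ => iInf₂_le (j γ) hγ)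

end Pool.Agent.Lib.MP_d61fbb_ag.FG
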