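import Pool.Agent.Lib.MP_d61fbb_ag.FG.G1
import Pool.Agent.Lib.MP_d61fbb_ag.FG.G2

/-! The monodromy theorem over fields with Frobenius density. -/

set_option autoImplicit false

noncomputable section

namespace Pool.Agent.Lib.MP_d61fbb_ag.FG

open Matrix Equiv Polynomial Pool.Agent.Lib.MP_0d42ed_ag.TP Pool.Agent.Lib.MP_d61fbb_ag.SQ Pool.Agent.Lib.MP_d61fbb_ag.WP

theorem zt_pow {k : Type} [Field k] {q : ℕ} (f : k[X]) {z : k} (hz : IsPrimitiveRoot z q) (a : ℕ) :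
    zt f hz ^ a = pic (tw (RingHom.id k) (z ^ a) Polynomial.map_id (by
      rw [← pow_mul, mul_comm, pow_mul, hz.pow_eq_one, one_pow])) := by
  induction a with
  | zero =>
    rw [pow_zero, ← sg_one (l := q) (f := f) Polynomial.map_id]
    simp only [pow_zero]
    rfl
  | succ a ih =>
    rw [pow_succ', ih, zt, m1_pic_mul,
      m1_tw_comp _ _ (RingHom.id k) _ _ (z ^ (a + 1)) _ _ _ _ _ _ rfl (pow_succ z a)]

theorem sg_tw {k : Type} [Field k] {q : ℕ} {f : k[X]} {σ : k ≃+* k} (hσ : f.map σ.toRingHom = f)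
    {z : k} (hz : IsPrimitiveRoot z q) {a : ℕ} (h : σ z = z ^ a) :
    sg q σ hσ * zt f hz = zt f hz ^ a * sg q σ hσ := by
  have h0 : (z ^ a) ^ q = 1 := by rw [← pow_mul, mul_comm, pow_mul, hz.pow_eq_one, one_pow]
  rw [zt_pow, sg, zt, m1_pic_mul, m1_pic_mul,
    m1_tw_comp _ _ _ _ _ _ _ _ _ _ hσ h0 rfl (by simp [h]),
    m1_tw_comp _ _ _ _ _ _ _ _ _ _ hσ h0 rfl (by simp)]

theorem topT {K : Type} [Field K] [CharZero K] (hK : FD K) (l k q : ℕ) [Fact l.Prime]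
    (hq : q = l ^ k) (h2 : 2 < q) (z : AlgebraicClosure K) (hz : IsPrimitiveRoot z q) (n : ℕ)
    (hn : ¬ l ∣ n) (f : K[X]) (r : Fin n → AlgebraicClosure K) (hr : Function.Injective r)
    (hf : bar f = ∏ i, (X - C (r i)))
    (hG : (8 ≤ n ∧ ∀ π ∈ alternatingGroup (Fin n),
        ∃ γ : AlgebraicClosure K ≃ₐ[K] AlgebraicClosure K, ∀ i, γ (r i) = r (π i)) ∨
      (5 ≤ n ∧ ∀ π : Perm (Fin n),
        ∃ γ : AlgebraicClosure K ≃ₐ[K] AlgebraicClosure K, γ z = z ∧ ∀ i, γ (r i) = r (π i))) :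
    FullT (k := AlgebraicClosure K) l (Fin (n - 1) × Fin q.totient) Weil (rotb f hz) (q / l)
        (gal q f) {a | ∃ γ : AlgebraicClosure K ≃ₐ[K] AlgebraicClosure K, γ z = z ^ a} ∧
      TateT (k := AlgebraicClosure K) (Fin (n - 1) × Fin q.totient) Weil (rotb f hz) (q / l)
        (gal q f) fun γ => (cyclotomicCharacter _ l γ.toRingEquiv).val := by
  obtain ⟨d, rfl⟩ : ∃ d, n = d + 1 := ⟨n - 1, by omega⟩
  obtain ⟨act, ha⟩ := exists_galHom q f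
  obtain ⟨pm, hp⟩ := exists_pm hr hf
  have : NeZero q := ⟨by omega⟩
  obtain ⟨k, rfl⟩ : ∃ j, k = j + 1 := Nat.exists_eq_succ_of_ne_zero (by rintro rfl; simp_all)
  let U := MulAction.stabilizer (AlgebraicClosure K ≃ₐ[K] AlgebraicClosure K) z
  have hS : ∀ γ : AlgebraicClosure K ≃ₐ[K] AlgebraicClosure K, ∃ a, γ z = z ^ a := fun γ => by
    obtain ⟨a, -, h⟩ := hz.eq_pow_of_pow_eq_one (ξ := γ z) (by rw [← map_pow, hz.pow_eq_one, map_one])
    exact ⟨a, h.symm⟩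
  have hm : ∀ (π : Perm (Fin (d + 1))) (γ : AlgebraicClosure K ≃ₐ[K] AlgebraicClosure K),
      (∀ i, γ (r i) = r (π i)) → pm γ = π := fun π γ h =>
    Equiv.ext fun i => hr ((hp γ i).symm.trans (h i))
  have hB : Big (pm.comp U.subtype).range := by
    refine hG.imp (fun h => ⟨by omega, ?_⟩) fun h => ⟨by omega, eq_top_iff.2 fun π _ => ?_⟩
    · rw [← commutator_alternatingGroup_eq_self (by simp; omega), Subgroup.commutator_le]
      intro π hπ π' hπ'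
      obtain ⟨γ, e⟩ := h.2 π hπ
      obtain ⟨γ', e'⟩ := h.2 π' hπ'
      refine ⟨⟨γ * γ' * γ⁻¹ * γ'⁻¹, ?_⟩, by
        simp [hm π γ e, hm π' γ' e', commutatorElement_def]⟩
      obtain ⟨a, e1⟩ := hS γ
      obtain ⟨a', e2⟩ := hS γ'
      obtain ⟨b, e3⟩ := hS (γ⁻¹ * γ'⁻¹)
      have e4 : (γ * γ') (z ^ b) = (γ' * γ) (z ^ b) := by
        simp only [AlgEquiv.mul_apply, map_pow, e1, e2, ← pow_mul, mul_comm a a']
      change (γ * γ' * γ⁻¹ * γ'⁻¹) z = z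
      rw [mul_assoc (γ * γ'), AlgEquiv.mul_apply, e3, e4, ← e3, ← AlgEquiv.mul_apply]
      simp
    · obtain ⟨γ, e, e'⟩ := h.2 π
      exact ⟨⟨γ, e⟩, hm π γ e'⟩
  let nu : (AlgebraicClosure K ≃ₐ[K] AlgebraicClosure K) →* ℤ_[l]ˣ :=
    (cyclotomicCharacter _ l).comp (MulSemiringAction.toRingAut _ (AlgebraicClosure K))
  obtain ⟨P, hj, h⟩ := geo_of' hK hq h2 hz hn hr hf U.subtype
    (fun γ => ⟨fun ⟨γ', e⟩ => e ▸ γ'.2, fun e => ⟨⟨γ, e⟩, rfl⟩⟩) (act.comp U.subtype)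
    (fun γ => ha γ) (pm.comp U.subtype) (fun γ => hp γ) hB (nu.comp U.subtype) fun _ => rfl
  obtain ⟨e, Z, B, ρ', h1, h3, h4, hB, hB0, hZB, hρ, hc⟩ := h.main' hj hq
  have hm : ∀ γ : AlgebraicClosure K ≃ₐ[K] AlgebraicClosure K,
      (bar f).map γ.toRingEquiv.toRingHom = bar f := fun γ => by
    rw [Polynomial.map_map]
    exact congrArg (Polynomial.map · f) (RingHom.ext fun a => γ.commutes a)
  have ht : ∀ γ a, γ z = z ^ a → act γ * zt (bar f) hz = zt (bar f) hz ^ a * act γ :=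
    fun γ a h => by
      rw [ha]
      exact sg_tw (hm γ) hz h
  have h5 : ∀ γ, ∃ M, Rep e (act γ) M := fun γ => rep_on h1 fun y => by
    obtain ⟨a, h⟩ := hS γ
    have e1 : SemiconjBy (act γ) (zt (bar f) hz ^ (q / l)) ((zt (bar f) hz ^ (q / l)) ^ a) := by
      rw [← pow_mul, mul_comm, pow_mul]
      exact SemiconjBy.pow_right (ht γ a h) _
    refine ⟨((∑ i ∈ Finset.range a, (zt (bar f) hz ^ (q / l)) ^ i) * act γ) y, ?_⟩
    change ((1 - zt (bar f) hz ^ (q / l)) * (_ * act γ)) y =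
      (act γ * (1 - zt (bar f) hz ^ (q / l))) y
    rw [← mul_assoc, mul_neg_geom_sum, mul_sub, sub_mul, one_mul, mul_one, e1.eq]
  choose r0 hr0 using h5
  let ρ : (AlgebraicClosure K ≃ₐ[K] AlgebraicClosure K) →* Matrix (Ix q d) (Ix q d) ℚ_[l] :=
    { toFun := r0
      map_one' := rep_uniq h1.1 (hr0 1) (by rw [map_one]; exact rep_one)
      map_mul' := fun γ δ => rep_uniq h1.1 (hr0 _) (by rw [map_mul]; exact (hr0 γ).mul (hr0 δ)) }
  obtain rfl : ρ' = ρ.comp U.subtype := MonoidHom.ext fun γ => rep_uniq h1.1 (h4 γ) (hr0 γ)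
  have h6 : ∀ γ a, γ z = z ^ a → ρ γ * Z = Z ^ a * ρ γ := fun γ a h =>
    rep_uniq h1.1 ((hr0 γ).mul h3) (ht γ a h ▸ (h3.pow a).mul (hr0 γ))
  obtain ⟨k1, k2⟩ := order_of_tate hq h2 (p7_tw _ _ _) h1 h3
  have hp' : l.Prime := Fact.out
  have hco : q.Coprime (d + 1) := hq ▸ Nat.Coprime.pow_left _ (hp'.coprime_iff_not_dvd.2 hn)
  have H : Hyp q d (bar f) r := ⟨by omega, Nat.cast_ne_zero.2 (by omega), hco, hr, hf⟩
  have := H.sm
  obtain ⟨ord, lc, o⟩ := exists_ord (l := q) (bar f)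
  obtain ⟨ω, w1, w2, w3⟩ := exists_mu (AlgebraicClosure K) l
  have p := pair_wv o
  obtain ⟨B', g⟩ := exists_gram p h1.1 w1 w2
  have hδ : ∀ N x y ζ, WV lc N x y ζ → WV lc N (zt (bar f) hz x) (zt (bar f) hz y) ζ :=
    fun N x y ζ k => wv_au o (rt (bar f) hz) k
  have g1 := g.skew p h1.1
  have g2 : Zᵀ * B' * Z = B' :=
    (g.conj p h1.1 h3 id (c := 1) (fun t => by rw [one_mul, id]) hδ).trans (one_smul _ _)
  have g3 : ∀ γ, (ρ γ)ᵀ * B' * ρ γ =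
      (((cyclotomicCharacter _ l γ.toRingEquiv).val : ℤ_[l]) : ℚ_[l]) • B' := fun γ =>
    g.conj p h1.1 (hr0 γ) γ.toRingEquiv (w3 _) fun N x y ζ k => by
      rw [ha]
      exact wv_au o (ga q _ (hm γ)) k
  have g4 : B'.det ≠ 0 := g.det_ne p hq h1 h3 (j_norm hz) (j_surj H hz) hδ fun x hx k =>
    wv_nondeg o H hz hx k
  have g5 : ∀ u : Matrix (Ix q d) (Ix q d) (PadicAlgCl l), u.det ≠ 0 →
      (Zar (Set.range (ρ.comp U.subtype)) u ↔ GU Z B' u) := fun u hu => (hc u hu).trans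
    (gu_congr (by omega) k1 k2 hB hB0 hZB hρ hc g4 (fun γ => g3 γ) u)
  have g6 := g.mono fun N x y ζ k => wv_weil o k
  have g7 : ∀ γ, Rep e (gal q f γ) (ρ γ) := fun γ => ha γ ▸ hr0 γ
  have g8 : B' ≠ 0 := by
    rintro rfl
    have : Nonempty (Ix q d) := ⟨(⟨0, by have := h.big.le; omega⟩, i0 q)⟩
    exact g4 det_zero
  refine ⟨⟨e, ω, Z, B', ρ, h1, h3, g7, g6, g4, zar_tu (j := U.subtype) (by omega) k1 g8 g3
    (fun γ => ?_) (fun a ⟨γ, h⟩ => ⟨γ, h6 γ a h⟩) g5⟩,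
    e, ω, Z, B', ρ, h1, h3, g7, g6, fun m i V hV => (tate_le U.subtype _ _ V i).trans ?_⟩
  · obtain ⟨a, h⟩ := hS γ
    exact ⟨a, ⟨γ, h⟩, h6 γ a h⟩
  · exact (genPow_of (ρ := ρ.comp U.subtype) (by omega) k1 k2 g1 g4 g2 (fun γ => g3 γ) g5 m i _
      (inferInstanceAs (V.subgroupOf U).FiniteIndex)).le

end Pool.Agent.Lib.MP_d61fbb_ag.FG
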