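import Mathlib

/-! Approximate branches and a divisibility of determinants. -/

set_option autoImplicit false

noncomputable section

namespace Pool.Agent.Lib.MP_d61fbb_ag.FG

open Polynomial Matrix

variable {A : Type} [CommRing A]

theorem h1_eval (g : A[X][X]) (ψ : A[X]) (a : A) :
    (g.eval ψ).eval a = (g.map (evalRingHom a)).eval (ψ.eval a) := by
  rw [eval_map, ← coe_evalRingHom, eval₂_hom]

/-- Near a simple root modulo `π` the roots are given by a polynomial modulo `π ^ n`. -/
theorem newton (g : A[X][X]) {π a0 x0 β : A} (hβ : π ∣ β * (derivative g).evalEval a0 x0 - 1)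
    (n : ℕ) : ∃ ψ : A[X], ∀ a x, π ∣ a - a0 → π ∣ x - x0 → g.evalEval a x = 0 →
      π ^ n ∣ x - ψ.eval a := by
  suffices h : ∃ ψ : A[X], ∀ a x, π ∣ a - a0 → π ∣ x - x0 → g.evalEval a x = 0 →
      π ^ (n + 1) ∣ x - ψ.eval a by
    obtain ⟨ψ, h⟩ := h
    exact ⟨ψ, fun a x h1 h2 h3 => (pow_dvd_pow π n.le_succ).trans (h a x h1 h2 h3)⟩
  induction n with
  | zero => exact ⟨C x0, fun a x _ h _ => by simpa using h⟩
  | succ n ih =>
    obtain ⟨ψ, h⟩ := ih
    refine ⟨ψ - C β * g.eval ψ, fun a x h1 h2 h3 => ?_⟩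
    have h4 := h a x h1 h2 h3
    have h5 := (dvd_pow_self π n.succ_ne_zero).trans h4
    rw [eval_sub, eval_mul, eval_C, h1_eval]
    rw [← map_evalRingHom_eval] at h3
    generalize ψ.eval a = y at h4 h5
    obtain ⟨c, hc⟩ := (g.map (evalRingHom a)).exists_mul_sq_add_linear_part_eq_eval_add y (x - y)
    rw [add_sub_cancel, h3, derivative_map] at hc
    have h6 : π ∣ ((derivative g).map (evalRingHom a)).eval y -
        ((derivative g).map (evalRingHom a)).eval x0 :=
      Dvd.dvd.trans (by simpa using h2.sub h5) (sub_dvd_eval_sub y x0 _)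
    have h7 : π ∣ ((derivative g).map (evalRingHom a)).eval x0 - (derivative g).evalEval a0 x0 := by
      rw [map_evalRingHom_eval]
      exact h1.trans (sub_dvd_eval_sub a a0 _)
    have h8 := mul_dvd_mul h4
      (((h6.add h7).mul_left β).add (hβ.add (h5.mul_left (β * c)))).neg_right
    rw [← pow_succ] at h8
    convert h8 using 1
    linear_combination β * hc

/-- The determinant of polynomial values is divisible by a Vandermonde determinant. -/
theorem vdm_dvd {σ : Type} [Fintype σ] [DecidableEq σ] {P a0 : A} (a : σ → A)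
    (ha : ∀ k, P ∣ a k - a0) (φ : σ → A[X]) :
    P ^ (Fintype.card σ * (Fintype.card σ - 1) / 2) ∣
      (Matrix.of fun k u => (φ u).eval (a k)).det := by
  nontriviality A
  obtain ⟨n, hn⟩ : ∃ n : ℕ, Fintype.card σ = n := ⟨_, rfl⟩
  have e := (Fintype.equivFinOfCardEq hn).symm
  obtain ⟨W, hW, hd, h0⟩ : ∃ W : A[X], W.Monic ∧ W.degree = (n : ℕ) ∧ ∀ k, W.eval (a k) = 0 := by
    have hW : (∏ k, (X - C (a k))).Monic := monic_prod_of_monic _ _ fun k _ => monic_X_sub_C _
    refine ⟨_, hW, ?_, fun k => ?_⟩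
    · rw [degree_eq_natDegree hW.ne_zero, natDegree_finsetProd_X_sub_C_eq_card, Finset.card_univ,
        hn]
    · rw [eval_prod]
      exact Finset.prod_eq_zero (Finset.mem_univ k) (by simp)
  have h1 : (Matrix.of fun k u => (φ u).eval (a k)).submatrix e e = vandermonde (a ∘ e) *
      Matrix.of fun i j : Fin n => (φ (e j) %ₘ W).coeff i := by
    ext i j
    have h2 := congrArg (eval (a (e i))) (modByMonic_add_div (φ (e j)) W)
    rw [eval_add, eval_mul, h0, zero_mul, add_zero, eval_eq_sum_degreeLTEquiv (n := n)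
      (mem_degreeLT.2 (hd ▸ degree_modByMonic_lt _ hW))] at h2
    rw [submatrix_apply, of_apply, ← h2, mul_apply]
    exact Finset.sum_congr rfl fun k _ => mul_comm _ _
  rw [← det_submatrix_equiv_self e, h1, det_mul, det_vandermonde, hn]
  refine Dvd.dvd.mul_right ?_ _
  have h3 : n * (n - 1) / 2 = ∑ i : Fin n, (Finset.Ioi i).card := by
    simp only [Fin.card_Ioi]
    rw [Fin.sum_univ_eq_sum_range (fun i => n - 1 - i), Finset.sum_range_reflect (fun i => i),
      Finset.sum_range_id]
  rw [h3, ← Finset.prod_pow_eq_pow_sum]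
  refine Finset.prod_dvd_prod_of_dvd _ _ fun i _ => ?_
  rw [← Finset.prod_const]
  exact Finset.prod_dvd_prod_of_dvd _ _ fun j _ => by simpa using (ha (e j)).sub (ha (e i))

/-- Congruent matrices have congruent determinants. -/
theorem det_congr {σ : Type} [Fintype σ] [DecidableEq σ] {P : A} {M M' : Matrix σ σ A}
    (h : ∀ k u, P ∣ M k u - M' k u) : P ∣ M.det - M'.det := by
  rw [← Ideal.mem_span_singleton, ← Ideal.Quotient.eq, RingHom.map_det, RingHom.map_det]
  congr 1
  ext k u
  exact Ideal.Quotient.eq.2 (Ideal.mem_span_singleton.2 (h k u))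

/-- Vectors all of whose maximal minors vanish satisfy a linear relation. -/
theorem exists_rel [IsDomain A] {S σ : Type} [Fintype σ] [DecidableEq σ] (v : S → σ → A)
    (h : ∀ f : σ → S, (Matrix.of fun k u => v (f k) u).det = 0) :
    ∃ c : σ → A, c ≠ 0 ∧ ∀ y, ∑ u, c u * v y u = 0 := by
  by_contra hc
  push Not at hc
  have h1 : ∀ T : Finset σ, ∃ N : Matrix σ σ A, N.det ≠ 0 ∧ ∀ k ∈ T, ∃ y, N k = v y := fun T => by
    induction T using Finset.induction_on with
    | empty => exact ⟨1, by simp, by simp⟩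
    | insert k T _ ih =>
      obtain ⟨N, hN, hT⟩ := ih
      have h2 : ∀ w, (N.updateRow k w).det = ∑ u, Nᵀ.adjugate k u * w u := fun w => by
        rw [← cramer_transpose_apply, cramer_eq_adjugate_mulVec]
        rfl
      obtain ⟨y, hy⟩ := hc (Nᵀ.adjugate k) fun h0 => hN (by
        rw [← N.updateRow_eq_self k, h2, h0]
        simp)
      refine ⟨N.updateRow k (v y), h2 _ ▸ hy, fun j hj => ?_⟩
      rcases eq_or_ne j k with rfl | hjk
      · exact ⟨y, updateRow_self⟩
      · rw [updateRow_ne hjk]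
        exact hT j ((Finset.mem_insert.1 hj).resolve_left hjk)
  obtain ⟨N, hN, hT⟩ := h1 Finset.univ
  choose f hf using fun k => hT k (Finset.mem_univ k)
  refine hN (h f ▸ congrArg det ?_)
  ext k u
  rw [hf, of_apply]

end Pool.Agent.Lib.MP_d61fbb_ag.FG
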