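import Pool.Agent.Lib.MP_d61fbb_ag.FG.D

/-! Places over a point of the affine line. -/

set_option autoImplicit false

noncomputable section

namespace Pool.Agent.Lib.MP_d61fbb_ag.FG

open Polynomial IsLocalRing Pool.Agent.Lib.MP_d61fbb_ag.SQ

variable {k Ω : Type} [Field k] [Field Ω] [Algebra (RatFunc k) Ω] [Algebra k[X] Ω]
  [IsScalarTower k[X] (RatFunc k) Ω] [IsAlgClosure (RatFunc k) Ω]

omit [IsAlgClosure (RatFunc k) Ω] in
theorem v1_inj : Function.Injective (algebraMap k[X] Ω) := by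
  rw [IsScalarTower.algebraMap_eq k[X] (RatFunc k) Ω]
  exact (algebraMap (RatFunc k) Ω).injective.comp (IsFractionRing.injective _ _)

theorem v1_alg (x : Ω) : IsAlgebraic k[X] x :=
  ((IsFractionRing.comap_isAlgebraic_iff (A := k[X]) (K := RatFunc k) (C := Ω)).2
    IsAlgClosure.isAlgebraic).isAlgebraic x

theorem v1_prim (x : Ω) (a : k) :
    ∃ g : k[X][X], aeval x g = 0 ∧ g.map (evalRingHom a) ≠ 0 := by
  classical
  obtain ⟨g, h0, hg⟩ := v1_alg (k := k) x
  refine ⟨g.primPart, ?_, fun h => ?_⟩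
  · rw [g.eq_C_content_mul_primPart, map_mul, aeval_C] at hg
    exact (mul_eq_zero.1 hg).resolve_left fun e =>
      h0 (content_eq_zero_iff.1 (v1_inj (e.trans (map_zero _).symm)))
  · refine not_isUnit_X_sub_C a (g.isPrimitive_primPart _ ((C_dvd_iff_dvd_coeff _ _).2 fun i => ?_))
    have := congrArg (coeff · i) h
    simpa [dvd_iff_isRoot] using this

section

omit [Algebra (RatFunc k) Ω] [IsScalarTower k[X] (RatFunc k) Ω] [IsAlgClosure (RatFunc k) Ω]

variable {V : ValuationSubring Ω} [Algebra k (ResidueField V)] {a : k}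

theorem v1_hom (h : Over V a) : ∃ i : k[X] →+* V, (∀ p, (i p : Ω) = algebraMap k[X] Ω p) ∧
    (residue V).comp i = (algebraMap k (ResidueField V)).comp (evalRingHom a) := by
  refine ⟨(algebraMap k[X] Ω).codRestrict V fun p => ?_, fun _ => rfl, RingHom.ext fun p => ?_⟩
  · obtain ⟨y, e, -⟩ := h p
    exact e ▸ y.2
  · obtain ⟨y, e, e'⟩ := h p
    exact (congrArg (residue V) (Subtype.ext e.symm)).trans e'

theorem v1_mem (h : Over V a) {x : Ω} (hx : IsIntegral k[X] x) : x ∈ V := by
  obtain ⟨i, h1, -⟩ := v1_hom h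
  let := i.toAlgebra
  have : IsScalarTower k[X] V Ω := .of_algebraMap_eq fun p => (h1 p).symm
  obtain ⟨y, rfl⟩ := IsIntegrallyClosed.isIntegral_iff.1 (hx.tower_top (A := V))
  exact y.2

theorem v1_val (h : Over V a) {p : k[X]} (hp : p.eval a ≠ 0) :
    V.valuation (algebraMap k[X] Ω p) = 1 := by
  obtain ⟨y, e, e'⟩ := h p
  rw [← e, ← V.valuation_eq_one_iff, ← residue_ne_zero_iff_isUnit, e']
  exact (_root_.map_ne_zero _).2 hp

theorem v1_loc (h : Over V a) (x : V) (n : ℕ) : ∀ g : (integralClosure k[X] Ω)[X],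
    g.natDegree ≤ n → aeval (x : Ω) g = 0 → (∃ i, V.valuation (g.coeff i : Ω) = 1) →
    ∃ s : Ω, IsIntegral k[X] s ∧ V.valuation s = 1 ∧ IsIntegral k[X] (s * x) := by
  induction n with
  | zero =>
    rintro g hn hg ⟨i, hi⟩
    rw [eq_C_of_natDegree_le_zero hn] at hg hi
    rw [aeval_C] at hg
    obtain e : g.coeff 0 = 0 := Subtype.ext hg
    simp [e] at hi
  | succ n ih =>
    rintro g hn hg ⟨i, hi⟩
    rcases hn.lt_or_eq with hn | hn
    · exact ih g (Nat.lt_succ_iff.1 hn) hg ⟨i, hi⟩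
    have h1 : IsIntegral k[X] ((g.leadingCoeff : Ω) * x) :=
      isIntegral_trans _ (isIntegral_leadingCoeff_smul g _ hg)
    rcases (V.valuation_le_one ⟨_, v1_mem h g.leadingCoeff.2⟩).lt_or_eq with hc | hc
    swap
    · exact ⟨_, g.leadingCoeff.2, hc, h1⟩
    have h2 : V.valuation ((g.leadingCoeff : Ω) * x) < 1 := by
      rw [map_mul]
      exact mul_lt_one_of_lt_of_le hc (V.valuation_le_one x)
    refine ih (g.eraseLead + monomial n ⟨_, h1⟩) ((natDegree_add_le _ _).trans (max_le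
      (g.eraseLead_natDegree_le.trans (by omega)) (natDegree_monomial_le _))) ?_ ⟨i, ?_⟩
    · rw [← g.eraseLead_add_monomial_natDegree_leadingCoeff, map_add, aeval_monomial, hn] at hg
      rw [map_add, aeval_monomial, ← hg, pow_succ']
      exact congrArg _ (mul_assoc (g.leadingCoeff : Ω) x _)
    · have h3 : i ≠ g.natDegree := by
        rintro rfl
        exact hc.ne hi
      rw [coeff_add, eraseLead_coeff_of_ne _ h3, coeff_monomial]
      split_ifs
      · exact (V.valuation.map_add_eq_of_lt_left (hi ▸ h2)).trans hi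
      · rw [add_zero, hi]

end

theorem exists_over (a : k) :
    ∃ (V : ValuationSubring Ω) (_ : Algebra k (ResidueField V)), Over V a := by
  obtain ⟨V, h1, h2⟩ := Ideal.image_subset_nonunits_valuationSubring
    (A := (algebraMap k[X] Ω).range)
    (Ideal.span {(algebraMap k[X] Ω).rangeRestrict (X - C a)}) (Ideal.span_singleton_ne_top (by
      intro h
      obtain ⟨⟨_, q, rfl⟩, hq⟩ := h.exists_right_inv
      have h3 : algebraMap k[X] Ω ((X - C a) * q) = algebraMap k[X] Ω 1 := by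
        rw [map_mul, map_one]
        exact congrArg Subtype.val hq
      exact not_isUnit_X_sub_C a (.of_mul_eq_one _ (v1_inj h3))))
  let i : k[X] →+* V := (algebraMap k[X] Ω).codRestrict V fun p => h1 ⟨p, rfl⟩
  have h3 : residue V (i (X - C a)) = 0 := by
    rw [residue_eq_zero_iff, V.valuation_lt_one_iff]
    exact h2 ⟨_, Ideal.mem_span_singleton_self _, rfl⟩
  refine ⟨V, ((residue V).comp (i.comp C)).toAlgebra, fun p => ⟨i p, rfl, ?_⟩⟩
  obtain ⟨q, hq⟩ := X_sub_C_dvd_sub_C_eval (a := a) (p := p)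
  change _ = residue V (i (C (p.eval a)))
  rw [← sub_eq_zero, ← map_sub, ← map_sub, hq, map_mul, map_mul, h3, zero_mul]

/-- A nonzero element is a unit over almost all points. -/
theorem unit_at {x : Ω} (hx : x ≠ 0) : ∃ h : k[X], h ≠ 0 ∧ ∀ (V : ValuationSubring Ω)
    [Algebra k (ResidueField V)] (a : k), Over V a → h.eval a ≠ 0 → V.valuation x = 1 := by
  obtain ⟨b, hb, h1⟩ := (v1_alg (k := k) x).exists_integral_multiple
  obtain ⟨c, hc, h2⟩ := (v1_alg (k := k) x⁻¹).exists_integral_multiple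
  refine ⟨b * c, mul_ne_zero hb hc, fun V _ a h ha => ?_⟩
  rw [eval_mul] at ha
  have h3 := (V.valuation_le_one_iff _).2 (v1_mem h h1)
  have h4 := (V.valuation_le_one_iff _).2 (v1_mem h h2)
  rw [Algebra.smul_def, map_mul, v1_val h (left_ne_zero_of_mul ha), one_mul] at h3
  rw [Algebra.smul_def, map_mul, v1_val h (right_ne_zero_of_mul ha), one_mul, map_inv₀] at h4
  exact le_antisymm h3 ((inv_le_one₀ (V.valuation.pos_iff.2 hx)).1 h4)

variable {V : ValuationSubring Ω} [Algebra k (ResidueField V)] {a : k}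

theorem Over.mem (h : Over V a) {x : Ω} (hx : IsIntegral k[X] x) : x ∈ V := by
  exact v1_mem h hx

theorem Over.root (h : Over V a) (x : V) {g : k[X][X]} (hg : aeval (x : Ω) g = 0) :
    aeval (residue V x) (g.map (evalRingHom a)) = 0 := by
  obtain ⟨i, h1, h2⟩ := v1_hom h
  have h3 : eval₂ i x g = 0 := by
    refine V.subtype_injective ?_
    rw [hom_eval₂, map_zero, ← hg, aeval_def]
    congr 1
    exact RingHom.ext h1
  rw [aeval_def, eval₂_map, ← h2, ← hom_eval₂, h3, map_zero]

/-- The valuation ring is a localisation of the integral closure. -/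
theorem Over.loc (h : Over V a) (x : V) : ∃ s : Ω, IsIntegral k[X] s ∧ V.valuation s = 1 ∧
    IsIntegral k[X] (s * x) := by
  obtain ⟨g, h1, h2⟩ := v1_prim (x : Ω) a
  obtain ⟨i, hi⟩ : ∃ i, (g.coeff i).eval a ≠ 0 := by
    by_contra! e
    exact h2 (Polynomial.ext fun i => by simpa using e i)
  refine v1_loc h x _ (g.map (algebraMap k[X] (integralClosure k[X] Ω))) le_rfl
    (by rw [aeval_map_algebraMap, h1]) ⟨i, ?_⟩
  rw [coeff_map]
  exact v1_val h hi

theorem Over.closure (h : Over V a) : IsAlgClosure k (ResidueField V) := by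
  have := IsAlgClosure.isAlgClosed (RatFunc k) (K := Ω)
  refine ⟨IsAlgClosed.of_exists_root _ fun q hq hi => ?_, ⟨fun y => ?_⟩⟩
  · obtain ⟨g, rfl, h1, h2⟩ := lifts_and_degree_eq_and_monic
      (map_surjective (residue V) residue_surjective q) hq
    obtain ⟨x, hx⟩ :=
      IsAlgClosed.exists_aeval_eq_zero Ω g (h1 ▸ (degree_pos_of_irreducible hi).ne')
    obtain ⟨y, rfl⟩ := IsIntegrallyClosed.isIntegral_iff.1 (⟨g, h2, hx⟩ : IsIntegral V x)
    refine ⟨residue V y, ?_⟩
    rw [aeval_algebraMap_apply, map_eq_zero_iff _ (IsFractionRing.injective V Ω)] at hx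
    rw [eval_map_apply, ← coe_aeval_eq_eval, hx, map_zero]
  · obtain ⟨x, rfl⟩ := residue_surjective y
    obtain ⟨g, h1, h2⟩ := v1_prim (x : Ω) a
    exact ⟨_, h2, h.root x h1⟩

theorem Over.ind (h : Over V a) (g : Ω ≃ₐ[RatFunc k] Ω) (hg : ∀ x, g x ∈ V ↔ x ∈ V) :
    ∃ τ : ResidueField V ≃ₐ[k] ResidueField V, Ind V g τ := by
  let e : V ≃+* V :=
    { toFun := fun x => ⟨g x, (hg x).2 x.2⟩
      invFun := fun y => ⟨g.symm y, (hg _).1 (by rw [g.apply_symm_apply]; exact y.2)⟩
      left_inv := fun x => Subtype.ext (g.symm_apply_apply x)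
      right_inv := fun x => Subtype.ext (g.apply_symm_apply x)
      map_mul' := fun x y => Subtype.ext (map_mul g (x : Ω) y)
      map_add' := fun x y => Subtype.ext (map_add g (x : Ω) y) }
  refine ⟨AlgEquiv.ofRingEquiv (f := ResidueField.mapEquiv e) fun c => ?_, hg, fun x y hxy => ?_⟩
  · obtain ⟨y, h1, h2⟩ := h (C c)
    rw [eval_C] at h2
    have h3 : e y = y := Subtype.ext (by
      change g y = y
      rw [h1, IsScalarTower.algebraMap_apply k[X] (RatFunc k) Ω, g.commutes])
    rw [← h2]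
    exact congrArg (residue V) h3
  · obtain rfl : e x = y := Subtype.ext hxy
    rfl

end Pool.Agent.Lib.MP_d61fbb_ag.FG
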