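import Pool.Agent.Lib.MP_d61fbb_ag.FG.D

/-! Composite valuations. -/

set_option autoImplicit false

noncomputable section

namespace Pool.Agent.Lib.MP_d61fbb_ag.FG

open Polynomial IsLocalRing Pool.Agent.Lib.MP_d61fbb_ag.SQ

variable {Ω : Type} [Field Ω] {V : ValuationSubring Ω}

theorem compos (S : ValuationSubring (ResidueField V)) : ∃ R : ValuationSubring Ω,
    (∀ x, x ∈ R ↔ ∃ y : V, (y : Ω) = x ∧ residue V y ∈ S) ∧
    ∀ y : V, R.valuation (y : Ω) < 1 ↔ S.valuation (residue V y) < 1 := by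
  let T : Subring Ω := (S.toSubring.comap (residue V)).map V.subtype
  have hT (x : Ω) : x ∈ T ↔ ∃ y : V, (y : Ω) = x ∧ residue V y ∈ S :=
    exists_congr fun _ => and_comm
  have h1 (y : V) (h : residue V y ≠ 0) :
      ∃ z : V, (z : Ω) = (y : Ω)⁻¹ ∧ residue V z = (residue V y)⁻¹ := by
    obtain ⟨z, hz⟩ := ((residue_ne_zero_iff_isUnit y).1 h).exists_right_inv
    exact ⟨z, eq_inv_of_mul_eq_one_right (congrArg Subtype.val hz),
      eq_inv_of_mul_eq_one_right (by rw [← map_mul, hz, map_one])⟩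
  have h2 (y : V) : (y : Ω) ∈ T ∨ (y : Ω)⁻¹ ∈ T := by
    by_cases h : residue V y = 0
    · exact .inl ((hT _).2 ⟨y, rfl, h ▸ S.zero_mem⟩)
    · obtain ⟨z, hz, hz'⟩ := h1 y h
      exact (S.mem_or_inv_mem _).imp (fun h => (hT _).2 ⟨y, rfl, h⟩)
        fun h => (hT _).2 ⟨z, hz, hz' ▸ h⟩
  refine ⟨⟨T, fun x => (V.mem_or_inv_mem x).elim (fun h => h2 ⟨x, h⟩) fun h => ?_⟩, hT,
    fun y => ?_⟩
  · exact (h2 ⟨x⁻¹, h⟩).symm.imp_left fun h => inv_inv x ▸ h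
  rw [← ValuationSubring.mem_nonunits_iff, ← ValuationSubring.mem_nonunits_iff,
    ValuationSubring.mem_nonunits_iff_or, ValuationSubring.mem_nonunits_iff_or]
  change _ ∨ _ ∉ T ↔ _
  by_cases h : residue V y = 0
  · refine iff_of_true (or_iff_not_imp_left.2 fun h0 h3 => ?_) (.inl h)
    obtain ⟨z, hz, -⟩ := (hT _).1 h3
    have h4 : y * z = 1 := Subtype.ext (by
      rw [MulMemClass.coe_mul, hz, mul_inv_cancel₀ h0, OneMemClass.coe_one])
    simpa [h] using congrArg (residue V) h4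
  · obtain ⟨z, hz, hz'⟩ := h1 y h
    refine or_congr (iff_of_false (fun h0 => h ?_) h) (not_congr ((hT _).trans
      ⟨fun ⟨w, hw, h3⟩ => ?_, fun h3 => ⟨z, hz, hz' ▸ h3⟩⟩))
    · rw [show y = 0 from Subtype.ext h0, map_zero]
    · rwa [← hz', ← show w = z from Subtype.ext (hw.trans hz.symm)]

/-- A lift of a Frobenius automorphism is a Frobenius automorphism. -/
theorem frob_lift (S : ValuationSubring (ResidueField V)) {p : ℕ} (hp : (p : ResidueField S) = 0)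
    {φ : Ω ≃+* Ω} {ψ : ResidueField V ≃+* ResidueField V} (h : Ind V φ ψ) (hψ : FrobAt S p ψ) :
    ∃ R : ValuationSubring Ω, (p : ResidueField R) = 0 ∧ FrobAt R p φ ∧
      ∀ y : V, S.valuation (residue V y) = 1 → R.valuation (y : Ω) = 1 := by
  obtain ⟨R, h1, h2⟩ := compos S
  have h3 {K : Type} [Field K] (A : ValuationSubring K) :
      (p : ResidueField A) = 0 ↔ A.valuation p < 1 := by
    rw [← map_natCast (residue A), residue_eq_zero_iff, A.valuation_lt_one_iff,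
      SubringClass.coe_natCast]
  refine ⟨R, ?_, ⟨fun x => ?_, fun x hx => ?_⟩, fun y hy => ?_⟩
  · rw [h3, ← SubringClass.coe_natCast V, h2, map_natCast]
    exact (h3 S).1 hp
  · rw [h1, h1]
    refine ⟨fun ⟨y, e, hy⟩ => ?_, fun ⟨y, e, hy⟩ => ?_⟩
    · have hx : x ∈ V := (h.1 x).1 (e ▸ y.2)
      exact ⟨⟨x, hx⟩, rfl, (hψ.1 _).1 (h.2 ⟨x, hx⟩ y e.symm ▸ hy)⟩
    · subst e
      exact ⟨⟨_, (h.1 _).2 y.2⟩, rfl, h.2 y ⟨_, (h.1 _).2 y.2⟩ rfl ▸ (hψ.1 _).2 hy⟩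
  · obtain ⟨y, rfl, hy⟩ := (h1 x).1 hx
    refine (h2 (⟨_, (h.1 _).2 y.2⟩ - y ^ p)).2 ?_
    rw [map_sub, map_pow, h.2 y ⟨_, (h.1 _).2 y.2⟩ rfl]
    exact hψ.2 _ hy
  · exact ((R.valuation_le_one_iff _).2 ((h1 _).2 ⟨y, rfl, S.mem_of_valuation_le_one _
      hy.le⟩)).antisymm (not_lt.1 fun h4 => ((h2 y).1 h4).ne hy)

theorem Ind.pow {k k' : Type} [Field k] [Field k'] [Algebra k Ω] [Algebra k' (ResidueField V)]
    {g : Ω ≃ₐ[k] Ω} {τ : ResidueField V ≃ₐ[k'] ResidueField V} (h : Ind V g τ) (n : ℕ) :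
    Ind V ⇑(g ^ n) ⇑(τ ^ n) := by
  induction n with
  | zero => exact ⟨fun _ => Iff.rfl, fun x y e => congrArg (residue V) (Subtype.ext e.symm)⟩
  | succ n ih =>
    rw [pow_succ, pow_succ]
    exact ⟨fun x => (ih.1 (g x)).trans (h.1 x), fun x y e =>
      (ih.2 ⟨_, (h.1 _).2 x.2⟩ y e).trans (congrArg _ (h.2 x _ rfl))⟩

end Pool.Agent.Lib.MP_d61fbb_ag.FG
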