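import Pool.Agent.Lib.MP_d61fbb_ag.FG.V2
import Pool.Agent.Lib.MP_d61fbb_ag.FG.V3

/-! Frobenius density for a rational function field. -/

set_option autoImplicit false

noncomputable section

namespace Pool.Agent.Lib.MP_d61fbb_ag.FG

open Polynomial IsLocalRing Pool.Agent.Lib.MP_d61fbb_ag.SQ

variable {k Ω : Type} [Field k] [Field Ω] [Algebra (RatFunc k) Ω] [Algebra k[X] Ω]
  [IsScalarTower k[X] (RatFunc k) Ω] [IsAlgClosure (RatFunc k) Ω]

/-- The action of the Galois group on a stable finite set. -/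
theorem v4_perm {K L : Type} [Field K] [Field L] [Algebra K L] (F : Finset L)
    (h : ∀ (g : L ≃ₐ[K] L), ∀ x ∈ F, g x ∈ F) :
    ∃ pm : (L ≃ₐ[K] L) →* Equiv.Perm F, ∀ g (x : F), (pm g x : L) = g x :=
  ⟨{ toFun := fun g => Equiv.Perm.subtypePerm g.toEquiv fun x =>
        ⟨fun k => by simpa using h g.symm _ k, h g x⟩
     map_one' := by ext x; rfl
     map_mul' := fun g g' => by ext x; rfl }, fun _ _ => rfl⟩

/-- The decomposition group. -/
def v4Dec (K : Type) {L : Type} [Field K] [Field L] [Algebra K L] (V : ValuationSubring L) :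
    Subgroup (L ≃ₐ[K] L) where
  carrier := {g | ∀ x, g x ∈ V ↔ x ∈ V}
  mul_mem' {g g'} hg hg' x := (hg (g' x)).trans (hg' x)
  one_mem' _ := Iff.rfl
  inv_mem' {g} hg x := by simpa using (hg (g⁻¹ x)).symm

/-- A place with full decomposition group on a finite set. -/
theorem full_dec [CharZero k] (hk : HI k) (F : Finset Ω) :
    ∃ (V : ValuationSubring Ω) (_ : Algebra k (ResidueField V)) (a : k), Over V a ∧
      (∀ x ∈ F, x ≠ 0 → V.valuation x = 1) ∧
      ∀ s : Ω ≃ₐ[RatFunc k] Ω, ∃ g : Ω ≃ₐ[RatFunc k] Ω,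
        (∀ x, g x ∈ V ↔ x ∈ V) ∧ ∀ x ∈ F, ∀ n : ℕ, (g ^ n) x = (s ^ n) x := by
  classical
  obtain ⟨F', hF, hst⟩ := exists_stable (K := RatFunc k) F
  obtain ⟨pm, hpm⟩ := v4_perm F' hst
  have hθ := fun j : {H : Subgroup (Equiv.Perm F') // H.comap pm ≠ ⊤} =>
    gal_theta F' (H := j.1.comap pm) (fun g hg => by
      have : pm g = 1 := Equiv.ext fun x => Subtype.ext ((hpm g x).trans (hg x x.2))
      rw [Subgroup.mem_comap, this]
      exact one_mem _) j.2
  choose θ hθ1 hθ2 hθ3 using hθ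
  have hu : ∀ x : Ω, ∃ h : k[X], h ≠ 0 ∧ (x ≠ 0 → ∀ (V : ValuationSubring Ω)
      [Algebra k (ResidueField V)] (a : k), Over V a → h.eval a ≠ 0 → V.valuation x = 1) := by
    intro x
    by_cases hx : x = 0
    · exact ⟨1, one_ne_zero, fun h => absurd hx h⟩
    · exact (unit_at hx).imp fun h hh => ⟨hh.1, fun _ => hh.2⟩
  choose u hu1 hu2 using hu
  have hi : ∀ j, IsIntegral (RatFunc k) (θ j) := fun j => (hθ1 j).tower_top
  have hm := fun j => minpoly.isIntegrallyClosed_eq_field_fractions' (RatFunc k) (hθ1 j)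
  obtain ⟨a, ha1, ha2⟩ := hk _ (fun j => minpoly k[X] (θ j)) (∏ x ∈ F, u x)
    (Finset.prod_ne_zero_iff.2 fun x _ => hu1 x) (fun j => minpoly.monic (hθ1 j))
    (fun j => hm j ▸ (minpoly.irreducible (hi j)).separable) fun j x hx => by
      have : (minpoly (RatFunc k) (θ j)).IsRoot x := by
        rw [hm, IsRoot.def, eval_map_algebraMap, hx]
      obtain ⟨y, hy⟩ := minpoly.mem_range_of_degree_eq_one _ _
        (degree_eq_one_of_irreducible_of_root (minpoly.irreducible (hi j)) this)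
      exact hθ3 j y hy
  obtain ⟨V, iV, hV⟩ := exists_over (Ω := Ω) a
  rw [eval_prod, Finset.prod_ne_zero_iff] at ha1
  refine ⟨V, iV, a, hV, fun x hx h0 => hu2 x h0 V a hV (ha1 x hx), fun s => ?_⟩
  have ht : ((v4Dec (RatFunc k) V).map pm).comap pm = ⊤ := by
    by_contra hn
    let j : {H : Subgroup (Equiv.Perm F') // H.comap pm ≠ ⊤} := ⟨_, hn⟩
    have := hV.closure
    have : IsGalois k (ResidueField V) := {}
    obtain ⟨c, hc⟩ := (InfiniteGalois.mem_range_algebraMap_iff_fixed (k := k)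
      (residue V ⟨θ j, hV.mem (hθ1 j)⟩)).2 fun τ => by
        obtain ⟨g, hg⟩ := hV.lift τ
        exact (hg.2 _ _ (hθ2 j g (Subgroup.le_comap_map pm _ hg.1))).symm
    have := hV.root ⟨θ j, hV.mem (hθ1 j)⟩ (minpoly.aeval k[X] (θ j))
    rw [← hc, aeval_algebraMap_apply, map_eq_zero, coe_aeval_eq_eval,
      map_evalRingHom_eval] at this
    exact ha2 j c this
  obtain ⟨g, hg, e⟩ := Subgroup.mem_comap.1 (ht.ge (Subgroup.mem_top s))
  refine ⟨g, hg, fun x hx n => ?_⟩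
  rw [← hpm _ ⟨x, hF hx⟩, ← hpm _ ⟨x, hF hx⟩, map_pow, map_pow, e]

theorem fd_step {k : Type} [Field k] [CharZero k] (h : FD k) (hk : HI k) : FD (RatFunc k) := by
  classical
  intro Ω _ _ _ F s Bd
  let _ : Algebra k[X] Ω :=
    ((algebraMap (RatFunc k) Ω).comp (algebraMap k[X] (RatFunc k))).toAlgebra
  have : IsScalarTower k[X] (RatFunc k) Ω := IsScalarTower.of_algebraMap_eq fun _ => rfl
  obtain ⟨F1, hF, hst⟩ := exists_stable (K := RatFunc k) F
  obtain ⟨V, iV, a, hV, hu, hs⟩ := full_dec hk (F1 ∪ Finset.image₂ (· - ·) F1 F1)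
  obtain ⟨g, hg, hgs⟩ := hs s
  obtain ⟨τ, hτ⟩ := hV.ind g hg
  have hm : ∀ x ∈ F1, x ∈ V := fun x hx => by
    by_cases h0 : x = 0
    · exact h0 ▸ zero_mem V
    · exact (V.valuation_le_one_iff x).1 (hu x (Finset.mem_union_left _ hx) h0).le
  have := hV.closure
  obtain ⟨S, p, ψ, m, n, hp, hB, hp0, hψ, h1, h2, h3⟩ := h (ResidueField V)
    (F1.attach.image fun x : F1 => residue V ⟨x, hm x x.2⟩) τ Bd
  obtain ⟨φ, hφ⟩ := hV.lift ψ
  obtain ⟨R, r1, r2, r3⟩ := frob_lift S hp0 (φ := φ.toRingEquiv) (ψ := ψ.toRingEquiv) hφ hψ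
  have hr : ∀ x (hx : x ∈ F1), residue V ⟨x, hm x hx⟩ ∈
      F1.attach.image fun x : F1 => residue V ⟨x, hm x x.2⟩ := fun x hx =>
    Finset.mem_image.2 ⟨⟨x, hx⟩, Finset.mem_attach _ _, rfl⟩
  have key : ∀ (u v : Ω ≃ₐ[RatFunc k] Ω) (σ σ' : ResidueField V → ResidueField V),
      Ind V u σ → Ind V v σ' → ∀ x (hx : x ∈ F1),
      σ (residue V ⟨x, hm x hx⟩) = σ' (residue V ⟨x, hm x hx⟩) → u x = v x := by
    intro u v σ σ' k1 k2 x hx e
    by_contra hn
    have k3 := hu (u x - v x) (Finset.mem_union_right _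
      (Finset.mem_image₂_of_mem (hst u x hx) (hst v x hx))) (sub_ne_zero.2 hn)
    rw [← k1.2 ⟨x, hm x hx⟩ ⟨u x, hm _ (hst u x hx)⟩ rfl,
      ← k2.2 ⟨x, hm x hx⟩ ⟨v x, hm _ (hst v x hx)⟩ rfl, ← sub_eq_zero, ← map_sub,
      residue_eq_zero_iff, V.valuation_lt_one_iff] at e
    exact e.ne k3
  refine ⟨R, p, φ, m, n, hp, hB, r1, r2, fun x hx h0 => ?_, fun x hx => ?_, fun x hx => ?_⟩
  · refine r3 ⟨x, hm x (hF hx)⟩ (h1 _ (hr x (hF hx)) ?_)
    rw [Ne, residue_eq_zero_iff, V.valuation_lt_one_iff]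
    exact (hu x (Finset.mem_union_left _ (hF hx)) h0).not_lt
  · rw [← hgs x (Finset.mem_union_left _ (hF hx))]
    exact key _ _ _ _ hφ (hτ.pow m) x (hF hx) (h2 _ (hr x (hF hx)))
  · have := hgs x (Finset.mem_union_left _ (hF hx)) 1
    rw [pow_one, pow_one] at this
    rw [← this]
    exact key _ _ _ _ hτ (hφ.pow n) x (hF hx) (h3 _ (hr x (hF hx)))

end Pool.Agent.Lib.MP_d61fbb_ag.FG
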